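import Pool.Agent.Helper26.CC.Defs

/-!
The algebra of matrices that are constant on colours, and spectral projections in it.
-/

set_option linter.unusedSectionVars false

namespace Pool.Agent.Helper26.CC

open Finset Matrix

variable {V : Type*} [Fintype V] [DecidableEq V] {r : ℕ}

/-- `M` is constant on colours. -/
def CM (c : V → V → Fin r) (M : Matrix V V ℝ) : Prop := ∃ m : Fin r → ℝ, ∀ u v, M u v = m (c u v)

theorem CM.eq {c : V → V → Fin r} {M : Matrix V V ℝ} (h : CM c M) {u v u' v' : V}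
    (e : c u v = c u' v') : M u v = M u' v' := by
  obtain ⟨m, hm⟩ := h
  rw [hm, hm, e]

theorem CM.add {c : V → V → Fin r} {M N : Matrix V V ℝ} (h : CM c M) (h' : CM c N) :
    CM c (M + N) := by
  obtain ⟨m, hm⟩ := h
  obtain ⟨n, hn⟩ := h'
  exact ⟨fun i => m i + n i, fun u v => by simp [hm, hn]⟩

theorem CM.smul {c : V → V → Fin r} {M : Matrix V V ℝ} (a : ℝ) (h : CM c M) :
    CM c (a • M) := by
  obtain ⟨m, hm⟩ := h
  exact ⟨fun i => a * m i, fun u v => by simp [hm]⟩

theorem CM.sub {c : V → V → Fin r} {M N : Matrix V V ℝ} (h : CM c M) (h' : CM c N) :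
    CM c (M - N) := by
  obtain ⟨m, hm⟩ := h
  obtain ⟨n, hn⟩ := h'
  exact ⟨fun i => m i - n i, fun u v => by simp [hm, hn]⟩

theorem CM.const {c : V → V → Fin r} (a : ℝ) : CM c (Matrix.of fun _ _ => a) :=
  ⟨fun _ => a, fun u v => by simp⟩

theorem CM.one {c : V → V → Fin r} (hc : IsCoherent c) : CM c (1 : Matrix V V ℝ) := by
  classical
  refine ⟨fun i => if ∃ v, c v v = i then 1 else 0, fun u v => ?_⟩
  by_cases h : u = v
  · subst h
    simp
  · have h2 : ¬ ∃ w, c w w = c u v := by
      rintro ⟨w, hw⟩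
      exact hc.diag_ne w u v h hw
    simp [Matrix.one_apply_ne h, h2]

theorem CM.transpose {c : V → V → Fin r} (hc : IsCoherent c) {M : Matrix V V ℝ} (h : CM c M) :
    CM c Mᵀ := by
  classical
  obtain ⟨m, hm⟩ := h
  choose s hs using hc.inv
  refine ⟨fun i => m (s i), fun u v => ?_⟩
  rw [Matrix.transpose_apply, hm, hs _ u v rfl]

theorem CM.mul {c : V → V → Fin r} (hc : IsCoherent c) {M N : Matrix V V ℝ} (h : CM c M)
    (h' : CM c N) : CM c (M * N) := by
  classical
  obtain ⟨m, hm⟩ := h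
  obtain ⟨n, hn⟩ := h'
  choose p hp using hc.coh
  refine ⟨fun t => ∑ i, ∑ j, (p i j t : ℝ) * (m i * n j), fun u v => ?_⟩
  rw [Matrix.mul_apply]
  have h1 : ∀ w, M u w * N w v = ∑ i, ∑ j, if c u w = i ∧ c w v = j then m i * n j else 0 := by
    intro w
    rw [hm, hn]
    rw [Finset.sum_eq_single (c u w)]
    · rw [Finset.sum_eq_single (c w v)]
      · simp
      · intro j _ hj
        rw [if_neg]
        exact fun h => hj h.2.symm
      · simp
    · intro i _ hi
      apply Finset.sum_eq_zero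
      intro j _
      rw [if_neg]
      exact fun h => hi h.1.symm
    · simp
  simp_rw [h1]
  rw [Finset.sum_comm]
  apply Finset.sum_congr rfl
  intro i _
  rw [Finset.sum_comm]
  apply Finset.sum_congr rfl
  intro j _
  rw [← hp i j (c u v) u v rfl, Finset.card_filter, Nat.cast_sum, Finset.sum_mul]
  apply Finset.sum_congr rfl
  intro w _
  by_cases h : c u w = i ∧ c w v = j <;> simp [h]

theorem CM.pow {c : V → V → Fin r} (hc : IsCoherent c) {M : Matrix V V ℝ} (h : CM c M) (k : ℕ) :
    CM c (M ^ k) := by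
  induction k with
  | zero => rw [pow_zero]; exact CM.one hc
  | succ k ih => rw [pow_succ]; exact ih.mul hc h

theorem CM.aeval {c : V → V → Fin r} (hc : IsCoherent c) {M : Matrix V V ℝ} (h : CM c M)
    (P : Polynomial ℝ) : CM c (Polynomial.aeval M P) := by
  induction P using Polynomial.induction_on' with
  | add p q hp hq => rw [map_add]; exact hp.add hq
  | monomial k a =>
    rw [Polynomial.aeval_monomial, ← Algebra.smul_def]
    exact (h.pow hc k).smul a

theorem aeval_transpose {M : Matrix V V ℝ} (h : Mᵀ = M) (P : Polynomial ℝ) :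
    (Polynomial.aeval M P)ᵀ = Polynomial.aeval M P := by
  induction P using Polynomial.induction_on' with
  | add p q hp hq => rw [map_add, Matrix.transpose_add, hp, hq]
  | monomial k a =>
    rw [Polynomial.aeval_monomial, ← Algebra.smul_def, Matrix.transpose_smul,
      Matrix.transpose_pow, h]

theorem aeval_mulVec {M : Matrix V V ℝ} {x : V → ℝ} {μ : ℝ} (h : M *ᵥ x = μ • x)
    (P : Polynomial ℝ) : (Polynomial.aeval M P) *ᵥ x = (P.eval μ) • x := by
  have hk : ∀ k : ℕ, (M ^ k) *ᵥ x = (μ ^ k) • x := by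
    intro k
    induction k with
    | zero => simp
    | succ k ih =>
      rw [pow_succ, ← Matrix.mulVec_mulVec, h, Matrix.mulVec_smul, ih, smul_smul, pow_succ,
        mul_comm]
  induction P using Polynomial.induction_on' with
  | add p q hp hq => rw [map_add, Matrix.add_mulVec, hp, hq, Polynomial.eval_add, add_smul]
  | monomial k a =>
    rw [Polynomial.aeval_monomial, ← Algebra.smul_def, Matrix.smul_mulVec, hk,
      Polynomial.eval_monomial, smul_smul]

/-- Matrices agreeing on an eigenbasis are equal. -/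
theorem ext_basis {B : Matrix V V ℝ} (hB : B.IsHermitian) {M N : Matrix V V ℝ}
    (h : ∀ j, M *ᵥ ⇑(hB.eigenvectorBasis j) = N *ᵥ ⇑(hB.eigenvectorBasis j)) : M = N := by
  have h1 : Matrix.toEuclideanLin M = Matrix.toEuclideanLin N := by
    apply (hB.eigenvectorBasis.toBasis).ext
    intro j
    ext i
    simp only [OrthonormalBasis.coe_toBasis]
    have := congrFun (h j) i
    simpa [Matrix.toEuclideanLin, Matrix.toLpLin_apply] using this
  exact Matrix.toEuclideanLin.injective h1

/-- The spectral projection for a nonzero eigenvalue on the sum-zero vectors, as a matrix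
that is constant on colours. -/
theorem exists_proj {c : V → V → Fin r} (hc : IsCoherent c) {B : Matrix V V ℝ}
    (hBs : Bᵀ = B) (hB : CM c B) {d ξ : ℝ} (hd : B *ᵥ (fun _ => 1) = d • (fun _ => 1))
    (hξ : ξ ≠ 0) {f : V → ℝ} (hf0 : f ≠ 0) (hfs : ∑ v, f v = 0) (hBf : B *ᵥ f = ξ • f) :
    ∃ E : Matrix V V ℝ, CM c E ∧ Eᵀ = E ∧ E * E = E ∧ B * E = ξ • E ∧
      (∀ u, ∑ v, E u v = 0) ∧ E *ᵥ f = f := by
  classical
  set n : ℝ := (Fintype.card V : ℝ) with hn
  obtain ⟨v0, hv0⟩ : ∃ v, f v ≠ 0 := by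
    by_contra h
    push Not at h
    exact hf0 (funext h)
  have hnpos : 0 < n := by
    rw [hn]
    exact_mod_cast Fintype.card_pos_iff.mpr ⟨v0⟩
  set J : Matrix V V ℝ := Matrix.of fun _ _ => (1 : ℝ) with hJ
  have hJs : Jᵀ = J := by ext i j; simp [hJ]
  have hJ1 : J *ᵥ (fun _ => (1 : ℝ)) = n • (fun _ => 1) := by
    ext i
    simp [hJ, Matrix.mulVec, dotProduct, hn]
  have hJf : J *ᵥ f = 0 := by
    ext i
    simp [hJ, Matrix.mulVec, dotProduct, hfs]
  set B' : Matrix V V ℝ := B - (d / n) • J with hB'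
  have hB's : B'ᵀ = B' := by
    rw [hB', Matrix.transpose_sub, Matrix.transpose_smul, hBs, hJs]
  have hB'c : CM c B' := hB.sub ((CM.const 1).smul (d / n))
  have hB'1 : B' *ᵥ (fun _ => (1 : ℝ)) = (0 : ℝ) • (fun _ => (1 : ℝ)) := by
    rw [hB', Matrix.sub_mulVec, Matrix.smul_mulVec, hJ1, hd, smul_smul,
      div_mul_cancel₀ _ hnpos.ne', sub_self, zero_smul]
  have hB'f : B' *ᵥ f = ξ • f := by
    rw [hB', Matrix.sub_mulVec, Matrix.smul_mulVec, hJf, hBf, smul_zero, sub_zero]
  have hH : B'.IsHermitian := by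
    rw [Matrix.IsHermitian, Matrix.conjTranspose, hB's]
    ext i j
    simp
  -- every eigenvalue of `B'` occurs among `hH.eigenvalues`
  have hocc : ∀ (μ : ℝ) (x : V → ℝ), x ≠ 0 → B' *ᵥ x = μ • x → ∃ j, hH.eigenvalues j = μ := by
    intro μ x hx hBx
    by_contra hcon
    push Not at hcon
    apply hx
    have horth : ∀ j, (⇑(hH.eigenvectorBasis j) : V → ℝ) ⬝ᵥ x = 0 := by
      intro j
      have h1 : (⇑(hH.eigenvectorBasis j) : V → ℝ) ⬝ᵥ (B' *ᵥ x)
          = (B' *ᵥ ⇑(hH.eigenvectorBasis j)) ⬝ᵥ x := by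
        rw [Matrix.dotProduct_mulVec, ← Matrix.mulVec_transpose, hB's]
      rw [hBx, hH.mulVec_eigenvectorBasis, dotProduct_smul, smul_dotProduct] at h1
      have h2 : (μ - hH.eigenvalues j) * ((⇑(hH.eigenvectorBasis j) : V → ℝ) ⬝ᵥ x) = 0 := by
        simp only [smul_eq_mul] at h1
        linarith
      rcases mul_eq_zero.mp h2 with h3 | h3
      · exact absurd (by linarith) (hcon j)
      · exact h3
    have h4 : (WithLp.toLp 2 x : EuclideanSpace ℝ V) = 0 := by
      rw [← hH.eigenvectorBasis.repr.map_eq_zero_iff]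
      ext j
      rw [OrthonormalBasis.repr_apply_apply]
      have := horth j
      simp only [PiLp.inner_apply, RCLike.inner_apply, conj_trivial, dotProduct] at this ⊢
      rw [PiLp.zero_apply, ← this]
      apply Finset.sum_congr rfl
      intro i _
      ring
    have h5 := congrArg (fun z : EuclideanSpace ℝ V => (z : V → ℝ)) h4
    simpa using h5
  set S : Finset ℝ := Finset.univ.image hH.eigenvalues with hS
  have h0S : (0 : ℝ) ∈ S := by
    obtain ⟨j, hj⟩ := hocc 0 (fun _ => 1) (by
      intro h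
      have := congrFun h v0
      simp at this) hB'1
    exact Finset.mem_image.mpr ⟨j, Finset.mem_univ _, hj⟩
  have hξS : ξ ∈ S := by
    obtain ⟨j, hj⟩ := hocc ξ f hf0 hB'f
    exact Finset.mem_image.mpr ⟨j, Finset.mem_univ _, hj⟩
  set P : Polynomial ℝ := Lagrange.basis S id ξ with hP
  have hPξ : P.eval ξ = 1 := by
    have := Lagrange.eval_basis_self (s := S) (v := id) (i := ξ) (Set.injOn_id _) hξS
    simpa [hP] using this
  have hPo : ∀ x ∈ S, x ≠ ξ → P.eval x = 0 := by
    intro x hx hne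
    have := Lagrange.eval_basis_of_ne (s := S) (v := id) (i := ξ) (j := x) (Ne.symm hne) hx
    simpa [hP] using this
  refine ⟨Polynomial.aeval B' P, hB'c.aeval hc P, aeval_transpose hB's P, ?_, ?_, ?_, ?_⟩
  · apply ext_basis hH
    intro j
    rw [← Matrix.mulVec_mulVec, aeval_mulVec (hH.mulVec_eigenvectorBasis j) P,
      Matrix.mulVec_smul, aeval_mulVec (hH.mulVec_eigenvectorBasis j) P]
    by_cases h : hH.eigenvalues j = ξ
    · rw [h, hPξ, one_smul]
    · rw [hPo _ (Finset.mem_image_of_mem _ (Finset.mem_univ _)) h]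
      simp
  · have hEJ : J * Polynomial.aeval B' P = 0 := by
      have h1 : Polynomial.aeval B' P *ᵥ (fun _ => (1 : ℝ)) = 0 := by
        rw [aeval_mulVec hB'1 P, hPo 0 h0S (Ne.symm hξ), zero_smul]
      ext i j
      rw [Matrix.mul_apply, Matrix.zero_apply]
      have h2 := congrFun h1 j
      simp only [Matrix.mulVec, dotProduct, mul_one, Pi.zero_apply] at h2
      rw [← h2]
      apply Finset.sum_congr rfl
      intro k _
      rw [hJ, Matrix.of_apply, one_mul]
      conv_lhs => rw [← aeval_transpose hB's P]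
      rfl
    have hBB : B = B' + (d / n) • J := by rw [hB']; abel
    rw [hBB, Matrix.add_mul, Matrix.smul_mul, hEJ, smul_zero, add_zero]
    apply ext_basis hH
    intro j
    rw [← Matrix.mulVec_mulVec, Matrix.smul_mulVec, aeval_mulVec (hH.mulVec_eigenvectorBasis j) P,
      Matrix.mulVec_smul, hH.mulVec_eigenvectorBasis, smul_smul, smul_smul]
    by_cases h : hH.eigenvalues j = ξ
    · rw [h, mul_comm]
    · rw [hPo _ (Finset.mem_image_of_mem _ (Finset.mem_univ _)) h, zero_mul, mul_zero, zero_smul]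
  · intro u
    have h1 : Polynomial.aeval B' P *ᵥ (fun _ => (1 : ℝ)) = 0 := by
      rw [aeval_mulVec hB'1 P, hPo 0 h0S (Ne.symm hξ), zero_smul]
    have h2 := congrFun h1 u
    simpa [Matrix.mulVec, dotProduct] using h2
  · rw [aeval_mulVec hB'f P, hPξ, one_smul]

end Pool.Agent.Helper26.CC
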