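import Pool.Agent.Helper26.CC.Trans

/-!
Amplification: a constituent with a weak gap relative to its distinguishing number yields a
constituent with a strong gap.
-/

set_option linter.unusedSectionVars false
set_option linter.unusedVariables false

namespace Pool.Agent.Helper26.CC

open Finset Matrix

variable {V : Type*} [Fintype V] [DecidableEq V] {r : ℕ}
variable {c : V → V → Fin r} {a : Fin r} {ξ : ℝ} {E : Matrix V V ℝ}

theorem rayleigh {B : Matrix V V ℝ} (hH : B.IsHermitian) {β : ℝ}
    (hβ : ∀ j, hH.eigenvalues j ≤ β) (f : V → ℝ) : f ⬝ᵥ (B *ᵥ f) ≤ β * (f ⬝ᵥ f) := by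
  classical
  have hBs : Bᵀ = B := by
    have := hH
    rw [Matrix.IsHermitian, Matrix.conjTranspose] at this
    conv_rhs => rw [← this]
    ext i j
    simp
  set b := hH.eigenvectorBasis with hb
  have hdot : ∀ x y : V → ℝ, inner ℝ (WithLp.toLp 2 x : EuclideanSpace ℝ V) (WithLp.toLp 2 y)
      = x ⬝ᵥ y := by
    intro x y
    simp only [PiLp.inner_apply, RCLike.inner_apply, conj_trivial, dotProduct]
    apply Finset.sum_congr rfl
    intro i _
    ring
  set F : EuclideanSpace ℝ V := WithLp.toLp 2 f with hF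
  set G : EuclideanSpace ℝ V := WithLp.toLp 2 (B *ᵥ f) with hG
  have h1 : ∀ j, inner ℝ (b j) G = hH.eigenvalues j * inner ℝ (b j) F := by
    intro j
    have h2 : (b j : EuclideanSpace ℝ V) = WithLp.toLp 2 (⇑(b j) : V → ℝ) := rfl
    rw [h2, hG, hF, hdot, hdot, Matrix.dotProduct_mulVec, ← Matrix.mulVec_transpose, hBs,
      hH.mulVec_eigenvectorBasis, smul_dotProduct, smul_eq_mul]
  rw [← hdot, ← hdot, ← hF, ← hG, ← b.sum_inner_mul_inner F G, ← b.sum_inner_mul_inner F F,
    Finset.mul_sum]
  apply Finset.sum_le_sum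
  intro j _
  rw [h1 j, real_inner_comm F (b j)]
  have h3 := hβ j
  nlinarith [mul_self_nonneg (inner ℝ (b j) F)]

theorem mode_le (hc : IsPCC c) (hE : Mode c a ξ E) {t : Fin r} (ht : IsEdgeColor c t) {β : ℝ}
    (hβ0 : 0 ≤ β)
    (hβ : ∀ (μ : ℝ) (g : V → ℝ), g ≠ 0 → ∑ x, g x = 0 → adj c t *ᵥ g = μ • g → |μ| ≤ β)
    {u v : V} (huv : c u v = t) : (deg c t u : ℝ) * E u v ≤ β * E u u := by
  classical
  set n : ℝ := (Fintype.card V : ℝ) with hn
  have hnpos : 0 < n := by
    rw [hn]
    exact_mod_cast Fintype.card_pos_iff.mpr ⟨u⟩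
  set d : ℝ := (deg c t u : ℝ) with hd
  set J : Matrix V V ℝ := Matrix.of fun _ _ => (1 : ℝ) with hJ
  have hJs : Jᵀ = J := by ext i j; simp [hJ]
  have hJv : ∀ g : V → ℝ, J *ᵥ g = fun _ => ∑ x, g x := by
    intro g
    ext i
    simp [hJ, Matrix.mulVec, dotProduct]
  set B : Matrix V V ℝ := adj c t - (d / n) • J with hB
  have hBs : Bᵀ = B := by
    rw [hB, Matrix.transpose_sub, Matrix.transpose_smul, adj_transpose, hJs]
  have hH : B.IsHermitian := by
    rw [Matrix.IsHermitian, Matrix.conjTranspose, hBs]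
    ext i j
    simp
  have hB1 : B *ᵥ (fun _ => (1 : ℝ)) = 0 := by
    ext x
    rw [hB, Matrix.sub_mulVec, Matrix.smul_mulVec, hJv]
    simp only [Pi.sub_apply, Pi.smul_apply, smul_eq_mul, Matrix.mulVec, dotProduct, mul_one,
      Pi.zero_apply]
    rw [adj_sum, deg_const hc ht x u, Finset.sum_const, nsmul_eq_mul, mul_one, Finset.card_univ,
      ← hn, ← hd]
    field_simp
    ring
  have hev : ∀ j, hH.eigenvalues j ≤ β := by
    intro j
    set g : V → ℝ := ⇑(hH.eigenvectorBasis j) with hg
    have hgB : B *ᵥ g = hH.eigenvalues j • g := hH.mulVec_eigenvectorBasis j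
    rcases le_or_gt (hH.eigenvalues j) 0 with h | h
    · exact h.trans hβ0
    have hgs : ∑ x, g x = 0 := by
      have h1 : (fun _ => (1 : ℝ)) ⬝ᵥ (B *ᵥ g) = (B *ᵥ (fun _ => (1 : ℝ))) ⬝ᵥ g := by
        rw [Matrix.dotProduct_mulVec, ← Matrix.mulVec_transpose, hBs]
      rw [hgB, hB1, dotProduct_smul, zero_dotProduct, smul_eq_mul] at h1
      have h2 : (fun _ => (1 : ℝ)) ⬝ᵥ g = ∑ x, g x := by simp [dotProduct]
      rw [h2] at h1
      rcases mul_eq_zero.mp h1 with h3 | h3
      · linarith
      · exact h3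
    have hg0 : g ≠ 0 := by
      intro h3
      have h4 := hH.eigenvectorBasis.orthonormal.1 j
      have h5 : hH.eigenvectorBasis j = 0 := by
        ext x
        exact congrFun h3 x
      rw [h5] at h4
      simp at h4
    have hga : adj c t *ᵥ g = hH.eigenvalues j • g := by
      have h6 : adj c t = B + (d / n) • J := by rw [hB]; abel
      rw [h6, Matrix.add_mulVec, Matrix.smul_mulVec, hJv, hgs, hgB]
      ext x
      simp
    exact (le_abs_self _).trans (hβ _ g hg0 hgs hga)
  -- columns of `E`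
  have hcol : ∀ w, (fun x => E x w) ⬝ᵥ (adj c t *ᵥ fun x => E x w) ≤ β * E w w := by
    intro w
    have hsum : ∑ x, E x w = 0 := by
      rw [← hE.row w]
      exact Finset.sum_congr rfl fun x _ => hE.symm x w
    have h1 := rayleigh hH hev (fun x => E x w)
    have h2 : (fun x => E x w) ⬝ᵥ (fun x => E x w) = E w w := by
      rw [← hE.idem w w]
      simp only [dotProduct]
      exact Finset.sum_congr rfl fun x _ => by rw [hE.symm w x]
    have h3 : B *ᵥ (fun x => E x w) = adj c t *ᵥ (fun x => E x w) := by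
      rw [hB, Matrix.sub_mulVec, Matrix.smul_mulVec, hJv, hsum]
      ext x
      simp
    rw [h2, h3] at h1
    exact h1
  have htot : ∑ w, (fun x => E x w) ⬝ᵥ (adj c t *ᵥ fun x => E x w) = n * (d * E u v) := by
    have h1 : ∀ w, (fun x => E x w) ⬝ᵥ (adj c t *ᵥ fun x => E x w)
        = ∑ x, ∑ y, adj c t x y * (E x w * E w y) := by
      intro w
      simp only [dotProduct, Matrix.mulVec, Finset.mul_sum]
      apply Finset.sum_congr rfl
      intro x _
      apply Finset.sum_congr rfl
      intro y _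
      rw [hE.symm w y]
      ring
    simp_rw [h1]
    rw [Finset.sum_comm]
    have h2 : ∀ x, ∑ w, ∑ y, adj c t x y * (E x w * E w y) = d * E u v := by
      intro x
      rw [Finset.sum_comm]
      simp_rw [← Finset.mul_sum, hE.idem]
      have h3 : ∀ y, adj c t x y * E x y = adj c t x y * E u v := by
        intro y
        by_cases h : x ≠ y ∧ (c x y = t ∨ c y x = t)
        · rcases h.2 with h' | h'
          · rw [hE.cm.eq (h'.trans huv.symm)]
          · rw [hE.symm x y, hE.cm.eq (h'.trans huv.symm)]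
        · have : adj c t x y = 0 := by
            unfold adj
            simp only [Matrix.of_apply, if_neg h]
          rw [this]
          ring
      simp_rw [h3]
      rw [← Finset.sum_mul, adj_sum, deg_const hc ht x u]
    simp_rw [h2]
    rw [Finset.sum_const, nsmul_eq_mul, Finset.card_univ]
  have hle : n * (d * E u v) ≤ n * (β * E u u) := by
    rw [← htot]
    calc _ ≤ ∑ w, β * E w w := Finset.sum_le_sum fun w _ => hcol w
      _ = n * (β * E u u) := by
          simp_rw [hE.diag hc _ u]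
          rw [Finset.sum_const, nsmul_eq_mul, Finset.card_univ]
  exact le_of_mul_le_mul_left hle hnpos

/-- Amplification. -/
theorem amplify (hc : IsPCC c) (hn : 3 ≤ Fintype.card V) {t : Fin r} (ht : IsEdgeColor c t)
    {u v : V} (huv : c u v = t) (hD : 4 * dnum c u v ≤ Fintype.card V) {l : ℝ} (hl0 : 0 < l)
    (hl1 : l ≤ 1)
    (hl : ∀ (μ : ℝ) (g : V → ℝ), g ≠ 0 → ∑ x, g x = 0 → adj c t *ᵥ g = μ • g →
      |μ| ≤ (1 - l) * deg c t u) :
    ∃ a, IsEdgeColor c a ∧ ∀ w, xi (sym c a) ≤
      (1 - min (1 / 2) (l / 64 * (Fintype.card V / dnum c u v) ^ 2)) * deg c a w := by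
  classical
  have hne : u ≠ v := by
    rintro rfl
    exact ht u huv
  set n : ℝ := (Fintype.card V : ℝ) with hnn
  have hnpos : 0 < n := by
    rw [hnn]
    exact_mod_cast Fintype.card_pos_iff.mpr ⟨u⟩
  set D : ℝ := (dnum c u v : ℝ) with hDD
  have hDpos : 0 < D := by
    rw [hDD]
    have : 0 < dnum c u v := by
      unfold dnum
      apply Finset.card_pos.mpr
      refine ⟨u, ?_⟩
      simp only [Finset.mem_filter, Finset.mem_univ, true_and]
      exact hc.coherent.diag_ne u u v hne
    exact_mod_cast this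
  have hD4 : 4 * D ≤ n := by rw [hDD, hnn]; exact_mod_cast hD
  have hDn : D / n ≤ 1 / 4 := by
    rw [div_le_div_iff₀ hnpos (by norm_num)]
    linarith
  -- the class
  obtain ⟨a, haE, ha⟩ := exists_class hc hn u
    (fun w => (if c w u ≠ c w v then (1 : ℝ) else 0) - D / n) (by
      rw [Finset.sum_sub_distrib, Finset.sum_const, Finset.card_erase_of_mem (mem_univ _),
        Finset.card_univ, nsmul_eq_mul, Nat.cast_sub (by omega), Nat.cast_one, ← hnn]
      have h1 : ∑ w ∈ univ.erase u, (if c w u ≠ c w v then (1 : ℝ) else 0) = D - 1 := by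
        have h2 := Finset.add_sum_erase univ (fun w => if c w u ≠ c w v then (1 : ℝ) else 0)
          (mem_univ u)
        have h3 : ∑ w, (if c w u ≠ c w v then (1 : ℝ) else 0) = D := by
          rw [hDD]
          unfold dnum
          rw [Finset.card_filter, Nat.cast_sum]
          apply Finset.sum_congr rfl
          intro w _
          split_ifs <;> simp
        rw [h3, if_pos (hc.coherent.diag_ne u u v hne)] at h2
        linarith
      rw [h1]
      have h4 : (n - 1) * (D / n) = D - D / n := by field_simp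
      rw [h4]
      linarith)
  refine ⟨a, haE, fun w0 => ?_⟩
  rw [deg_const hc haE w0 u]
  set S := univ.filter (fun w => u ≠ w ∧ (c u w = a ∨ c w u = a)) with hS
  have hScard : (S.card : ℝ) = deg c a u := rfl
  set d : ℝ := (deg c a u : ℝ) with hd
  have hdpos : 0 < d := by rw [hd]; exact_mod_cast deg_pos hc hn haE u
  have hbad : ∑ w ∈ S, (if c w u ≠ c w v then (1 : ℝ) else 0) ≤ d * (D / n) := by
    rw [Finset.sum_sub_distrib, Finset.sum_const, nsmul_eq_mul, hScard] at ha
    linarith
  set δ : ℝ := min (1 / 2) (l / 64 * (n / D) ^ 2) with hδ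
  have hδ0 : 0 < δ := by
    rw [hδ]
    apply lt_min (by norm_num)
    positivity
  have hδ2 : δ ≤ 1 / 2 := min_le_left _ _
  have hδ3 : δ ≤ l / 64 * (n / D) ^ 2 := min_le_right _ _
  have hA1 : (sym c a).adjMatrix ℝ *ᵥ (fun _ => 1) = d • (fun _ => (1 : ℝ)) := by
    rw [adjMatrix_eq]
    ext x
    simp only [Matrix.mulVec, dotProduct, mul_one, Pi.smul_apply, smul_eq_mul]
    rw [adj_sum, hd, deg_const hc haE x u]
  apply xi_le (by omega) hdpos.le hA1
  intro ξ f hf0 hfs hf
  rw [adjMatrix_eq] at hf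
  by_contra hcon
  push Not at hcon
  have hξ0 : ξ ≠ 0 := by
    intro h
    rw [h, abs_zero] at hcon
    have : 0 < (1 - δ) * d := mul_pos (by linarith) hdpos
    linarith
  obtain ⟨E, hE⟩ := exists_mode hc haE hξ0 hf0 hfs hf
  have hE0 := hE.pos hc u
  set E0 := E u u with hE0def
  have hη : 0 < E0 - E u v := by
    have := hE.lt hc hne
    linarith
  set η := E0 - E u v with hηdef
  have hηl : l * E0 ≤ η := by
    have h1 := mode_le hc hE ht (β := (1 - l) * deg c t u)
      (mul_nonneg (by linarith) (by positivity)) hl huv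
    have hdt : (0 : ℝ) < deg c t u := by exact_mod_cast deg_pos hc hn ht u
    have h2 : (deg c t u : ℝ) * E u v ≤ (deg c t u : ℝ) * ((1 - l) * E0) := by
      calc _ ≤ _ := h1
        _ = _ := by ring
    have h3 := le_of_mul_le_mul_left h2 hdt
    rw [hηdef]
    linarith
  -- sign
  obtain ⟨s, hs, hsξ⟩ : ∃ s : ℝ, (s = 1 ∨ s = -1) ∧ s * ξ = |ξ| := by
    rcases le_or_gt 0 ξ with h | h
    · exact ⟨1, Or.inl rfl, by rw [one_mul, abs_of_nonneg h]⟩
    · exact ⟨-1, Or.inr rfl, by rw [abs_of_neg h]; ring⟩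
  have hs2 : s ^ 2 = 1 := by rcases hs with h | h <;> rw [h] <;> norm_num
  set δ' : ℝ := 1 - |ξ| / d with hδ'
  have hδ'lt : δ' < δ := by
    rw [hδ']
    have : (1 - δ) < |ξ| / d := by rwa [lt_div_iff₀ hdpos]
    linarith
  -- `s * E w u = (1 - δ') E0` on `S`
  have hSval : ∀ w ∈ S, s * E w u = (1 - δ') * E0 := by
    intro w hw
    have hw' : u ≠ w ∧ (c u w = a ∨ c w u = a) := (Finset.mem_filter.mp hw).2
    have hadj : (sym c a).Adj u w := by
      simpa [sym, SimpleGraph.fromRel_adj] using hw'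
    have h1 := hE.key hadj
    rw [← hd] at h1
    have h2 : E w u = ξ * E0 / d := by
      rw [hE.symm w u, eq_div_iff hdpos.ne']
      linarith
    rw [h2, hδ']
    have : s * (ξ * E0 / d) = (s * ξ) * E0 / d := by ring
    rw [this, hsξ]
    ring
  have hδ'0 : 0 ≤ δ' := by
    have hSne : S.Nonempty := by
      rw [← Finset.card_pos]
      have : (0 : ℝ) < S.card := by rw [hScard]; exact hdpos
      exact_mod_cast this
    obtain ⟨w, hw⟩ := hSne
    have hw' : u ≠ w ∧ (c u w = a ∨ c w u = a) := (Finset.mem_filter.mp hw).2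
    have h1 := X_norm hc hE hs w u
    have h2 := hSval w hw
    have h3 : 0 ≤ ‖X E w - s • X E u‖ ^ 2 := by positivity
    rw [h1, h2, hE.diag hc w u, ← hE0def] at h3
    nlinarith
  -- bound for the differences
  have hdiff : ∀ w ∈ S, |E w u - E w v| ≤ η + 2 * Real.sqrt (δ' * E0 * η) := by
    intro w hw
    have h1 : (E w u - E w v - s * η) ^ 2 ≤ (2 * Real.sqrt (δ' * E0 * η)) ^ 2 := by
      have h2 : E w u - E w v - s * η = ∑ x, (E w x - s * E u x) * (E u x - E v x) := by
        have h3 : ∀ x, (E w x - s * E u x) * (E u x - E v x)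
            = E w x * E u x - E w x * E v x - s * (E u x * E u x) + s * (E u x * E v x) := by
          intro x; ring
        simp_rw [h3, Finset.sum_add_distrib, Finset.sum_sub_distrib, ← Finset.mul_sum]
        rw [hE.inner_eq, hE.inner_eq, hE.inner_eq, hE.inner_eq]
        rw [hηdef]
        ring
      rw [h2]
      refine (Finset.sum_mul_sq_le_sq_mul_sq _ _ _).trans ?_
      have h4 : ∑ x, (E w x - s * E u x) ^ 2 = 2 * (δ' * E0) := by
        have h5 : ∀ x, (E w x - s * E u x) ^ 2
            = E w x * E w x - 2 * s * (E w x * E u x) + s ^ 2 * (E u x * E u x) := by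
          intro x; ring
        simp_rw [h5, Finset.sum_add_distrib, Finset.sum_sub_distrib, ← Finset.mul_sum]
        rw [hE.inner_eq, hE.inner_eq, hE.inner_eq, hs2, hE.diag hc w u, ← hE0def]
        have h6 := hSval w hw
        linear_combination (-2) * h6
      have h7 : ∑ x, (E u x - E v x) ^ 2 = 2 * η := by
        have h5 : ∀ x, (E u x - E v x) ^ 2
            = E u x * E u x - 2 * (E u x * E v x) + E v x * E v x := by
          intro x; ring
        simp_rw [h5, Finset.sum_add_distrib, Finset.sum_sub_distrib, ← Finset.mul_sum]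
        rw [hE.inner_eq, hE.inner_eq, hE.inner_eq, hE.diag hc v u, ← hE0def]
        rw [hηdef]
        ring
      rw [h4, h7, mul_pow, Real.sq_sqrt (by positivity)]
      apply le_of_eq
      ring
    have h8 := abs_le_of_sq_le_sq h1 (by positivity)
    have h9 : |s * η| = η := by
      rw [abs_mul, abs_of_pos hη]
      rcases hs with h | h <;> rw [h] <;> simp
    have h10 : |E w u - E w v| ≤ |E w u - E w v - s * η| + |s * η| := by
      have := abs_add_le (E w u - E w v - s * η) (s * η)
      simpa using this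
    have h11 : |E w u - E w v - s * η| ≤ 2 * Real.sqrt (δ' * E0 * η) := h8
    rw [h9] at h10
    linarith
  -- summing over `S`
  have hsumS : |ξ| * η ≤ (d * (D / n)) * (η + 2 * Real.sqrt (δ' * E0 * η)) := by
    have h1 : ξ * η = ∑ w ∈ S, (E w u - E w v) := by
      have h2 : ∑ w, adj c a u w * (E w u - E w v) = ξ * η := by
        simp only [mul_sub, Finset.sum_sub_distrib]
        rw [hE.eig, hE.eig, hηdef]
        ring
      rw [← h2, hS, Finset.sum_filter]
      apply Finset.sum_congr rfl
      intro w _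
      unfold adj
      simp only [Matrix.of_apply]
      split_ifs <;> simp
    have h3 : |ξ| * η = |ξ * η| := by rw [abs_mul, abs_of_pos hη]
    rw [h3, h1]
    calc |∑ w ∈ S, (E w u - E w v)| ≤ ∑ w ∈ S, |E w u - E w v| := Finset.abs_sum_le_sum_abs _ _
      _ ≤ ∑ w ∈ S, (if c w u ≠ c w v then (1 : ℝ) else 0) * (η + 2 * Real.sqrt (δ' * E0 * η)) := by
          apply Finset.sum_le_sum
          intro w hw
          split_ifs with h
          · rw [one_mul]; exact hdiff w hw
          · push Not at h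
            rw [hE.cm.eq h]
            simp
      _ = (∑ w ∈ S, (if c w u ≠ c w v then (1 : ℝ) else 0)) * (η + 2 * Real.sqrt (δ' * E0 * η)) := by
          rw [Finset.sum_mul]
      _ ≤ _ := mul_le_mul_of_nonneg_right hbad (by positivity)
  have hξd : |ξ| = (1 - δ') * d := by
    rw [hδ']
    field_simp
    ring
  rw [hξd] at hsumS
  have h1 : (1 - δ') * η ≤ (D / n) * (η + 2 * Real.sqrt (δ' * E0 * η)) := by
    have : ((1 - δ') * η) * d ≤ ((D / n) * (η + 2 * Real.sqrt (δ' * E0 * η))) * d := by
      calc _ = (1 - δ') * d * η := by ring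
        _ ≤ _ := hsumS
        _ = _ := by ring
    exact le_of_mul_le_mul_right this hdpos
  set q := Real.sqrt (δ' * E0 * η) with hq
  have hq0 : 0 ≤ q := Real.sqrt_nonneg _
  have hq2 : q ^ 2 = δ' * E0 * η := Real.sq_sqrt (by positivity)
  have hDn0 : 0 < D / n := by positivity
  have h2 : η / 4 ≤ 2 * (D / n) * q := by
    have h3 : (D / n) * η ≤ 1 / 4 * η := mul_le_mul_of_nonneg_right hDn hη.le
    have h4 : 1 / 2 * η ≤ (1 - δ') * η := mul_le_mul_of_nonneg_right (by linarith) hη.le
    nlinarith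
  have h3 : (η / 4) ^ 2 ≤ (2 * (D / n) * q) ^ 2 := pow_le_pow_left₀ (by positivity) h2 2
  have h4 : (2 * (D / n) * q) ^ 2 = 4 * (D / n) ^ 2 * (δ' * E0 * η) := by
    rw [mul_pow, mul_pow, hq2]; ring
  rw [h4] at h3
  have h5 : η * η ≤ (64 * (D / n) ^ 2 * (δ' * E0)) * η := by nlinarith
  have h6 : η ≤ 64 * (D / n) ^ 2 * (δ' * E0) := le_of_mul_le_mul_right h5 hη
  have h7 : l * E0 ≤ (64 * (D / n) ^ 2 * δ') * E0 := by
    calc l * E0 ≤ η := hηl
      _ ≤ _ := h6
      _ = _ := by ring
  have h8 : l ≤ 64 * (D / n) ^ 2 * δ' := le_of_mul_le_mul_right h7 hE0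
  have h9 : l / 64 * (n / D) ^ 2 ≤ δ' := by
    have h10 : (D / n) ^ 2 * (n / D) ^ 2 = 1 := by
      rw [← mul_pow]
      have : D / n * (n / D) = 1 := by field_simp
      rw [this, one_pow]
    calc l / 64 * (n / D) ^ 2 ≤ (64 * (D / n) ^ 2 * δ') / 64 * (n / D) ^ 2 := by
          apply mul_le_mul_of_nonneg_right _ (by positivity)
          linarith
      _ = δ' * ((D / n) ^ 2 * (n / D) ^ 2) := by ring
      _ = δ' := by rw [h10, mul_one]
  linarith

end Pool.Agent.Helper26.CC
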