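import Pool.Agent.Helper26.CC.Mode

/-!
Balls in a connected regular graph: linear growth.
-/

set_option linter.unusedSectionVars false

namespace Pool.Agent.Helper26.CC

open Finset Matrix

variable {V : Type*} [Fintype V] [DecidableEq V] {r : ℕ}

open Classical in
/-- Ball of radius `k` about `u`. -/
noncomputable def ball (G : SimpleGraph V) (u : V) : ℕ → Finset V
  | 0 => {u}
  | k + 1 => univ.filter fun v => v ∈ ball G u k ∨ ∃ w ∈ ball G u k, G.Adj w v

theorem ball_succ_subset (G : SimpleGraph V) (u : V) (k : ℕ) : ball G u k ⊆ ball G u (k + 1) := by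
  intro v hv
  simp only [ball, Finset.mem_filter, Finset.mem_univ, true_and]
  exact Or.inl hv

theorem ball_mono (G : SimpleGraph V) (u : V) {k l : ℕ} (h : k ≤ l) : ball G u k ⊆ ball G u l := by
  induction h with
  | refl => exact Finset.Subset.refl _
  | step _ ih => exact ih.trans (ball_succ_subset G u _)

theorem mem_ball_succ_of_adj {G : SimpleGraph V} {u v w : V} {k : ℕ} (hw : w ∈ ball G u k)
    (h : G.Adj w v) : v ∈ ball G u (k + 1) := by
  simp only [ball, Finset.mem_filter, Finset.mem_univ, true_and]
  exact Or.inr ⟨w, hw, h⟩

theorem closed_eq_univ {G : SimpleGraph V} (hG : G.Connected) {S : Finset V} {u : V} (hu : u ∈ S)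
    (hS : ∀ x ∈ S, ∀ y, G.Adj x y → y ∈ S) : S = univ := by
  ext v
  simp only [Finset.mem_univ, iff_true]
  obtain ⟨p⟩ := hG.preconnected u v
  induction p with
  | nil => exact hu
  | cons h p ih => exact ih (hS _ hu _ h)

open Classical in
/-- Linear growth of balls. -/
theorem ball_growth {G : SimpleGraph V} (hG : G.Connected) {d : ℕ}
    (hd : ∀ v, d ≤ (univ.filter fun w => G.Adj v w).card) {u : V} {K : ℕ}
    (hK : ball G u K ≠ univ) : ∀ k ≤ K, k * (d + 1) ≤ 3 * (ball G u k).card := by
  classical
  have hu : ∀ k, u ∈ ball G u k := fun k => ball_mono G u (Nat.zero_le k) (by simp [ball])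
  -- closed neighbourhoods
  have hN : ∀ y k, y ∈ ball G u k → ∀ S : Finset V, S ⊆ ball G u (k + 1) →
      (∀ z ∈ S, z ≠ y ∧ ¬ G.Adj y z) → S.card + (d + 1) ≤ (ball G u (k + 1)).card := by
    intro y k hy S hS hdis
    have h1 : S ∪ insert y (univ.filter fun w => G.Adj y w) ⊆ ball G u (k + 1) := by
      intro z hz
      rcases Finset.mem_union.mp hz with h | h
      · exact hS h
      · rcases Finset.mem_insert.mp h with h | h
        · subst h; exact ball_succ_subset G u k hy
        · exact mem_ball_succ_of_adj hy (Finset.mem_filter.mp h).2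
    have h2 : Disjoint S (insert y (univ.filter fun w => G.Adj y w)) := by
      rw [Finset.disjoint_left]
      intro z hz hz'
      rcases Finset.mem_insert.mp hz' with h | h
      · exact (hdis z hz).1 h
      · exact (hdis z hz).2 (Finset.mem_filter.mp h).2
    calc S.card + (d + 1) ≤ S.card + (insert y (univ.filter fun w => G.Adj y w)).card := by
          rw [Finset.card_insert_of_notMem (by simp)]
          have := hd y
          omega
      _ = (S ∪ insert y (univ.filter fun w => G.Adj y w)).card := (Finset.card_union_of_disjoint h2).symm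
      _ ≤ _ := Finset.card_le_card h1
  have hone : d + 1 ≤ (ball G u 1).card := by
    have := hN u 0 (hu 0) ∅ (Finset.empty_subset _) (by simp)
    simpa using this
  intro k
  induction k using Nat.strong_induction_on with
  | _ k ih =>
    intro hk
    rcases Nat.lt_or_ge k 3 with h3 | h3
    · rcases Nat.eq_zero_or_pos k with h0 | h0
      · subst h0; simp
      · have h1 : (ball G u 1).card ≤ (ball G u k).card := Finset.card_le_card (ball_mono G u h0)
        calc k * (d + 1) ≤ 3 * (d + 1) := Nat.mul_le_mul_right _ (by omega)
          _ ≤ 3 * (ball G u k).card := by omega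
    · obtain ⟨j, rfl⟩ := Nat.exists_eq_add_of_le' h3
      have ihj := ih j (by omega) (by omega)
      -- find y in ball (j+2) \ ball (j+1)
      have hne : ball G u (j + 1) ≠ univ := by
        intro h
        apply hK
        apply Finset.eq_univ_of_forall
        intro x
        exact ball_mono G u (by omega : j + 1 ≤ K) (h ▸ Finset.mem_univ x)
      obtain ⟨y, hy2, hy1⟩ : ∃ y, y ∈ ball G u (j + 2) ∧ y ∉ ball G u (j + 1) := by
        by_contra hcon
        push Not at hcon
        apply hne
        apply closed_eq_univ hG (hu (j + 1))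
        intro x hx y hxy
        exact hcon y (mem_ball_succ_of_adj hx hxy)
      have h4 := hN y (j + 2) hy2 (ball G u j) (ball_mono G u (by omega)) (by
        intro z hz
        constructor
        · rintro rfl
          exact hy1 (ball_succ_subset G u j hz)
        · intro hadj
          exact hy1 (mem_ball_succ_of_adj hz hadj.symm))
      have h5 : (j + 3) * (d + 1) = j * (d + 1) + 3 * (d + 1) := by ring
      rw [h5]
      have h6 : j + 2 + 1 = j + 3 := rfl
      rw [h6] at h4
      omega

end Pool.Agent.Helper26.CC
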