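import Pool.Agent.Helper26.CC.Ball

/-!
The main estimates for a mode.
-/

set_option linter.unusedSectionVars false

namespace Pool.Agent.Helper26.CC

open Finset Matrix

variable {V : Type*} [Fintype V] [DecidableEq V] {r : ℕ}
variable {c : V → V → Fin r} {a : Fin r} {ξ : ℝ} {E : Matrix V V ℝ}

/-- The embedding given by a mode. -/
noncomputable def X (E : Matrix V V ℝ) (u : V) : EuclideanSpace ℝ V := WithLp.toLp 2 (E u)

theorem X_norm (hc : IsPCC c) (hE : Mode c a ξ E) {s : ℝ} (hs : s = 1 ∨ s = -1) (u v : V) :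
    ‖X E u - s • X E v‖ ^ 2 = 2 * (E u u - s * E u v) := by
  rw [EuclideanSpace.norm_sq_eq]
  have h1 : ∀ x, ‖(X E u - s • X E v) x‖ ^ 2
      = E u x * E u x - 2 * s * (E u x * E v x) + s ^ 2 * (E v x * E v x) := by
    intro x
    simp only [X, PiLp.sub_apply, PiLp.smul_apply, smul_eq_mul, Real.norm_eq_abs, sq_abs]
    ring
  simp_rw [h1, Finset.sum_add_distrib, Finset.sum_sub_distrib, ← Finset.mul_sum]
  rw [hE.inner_eq, hE.inner_eq, hE.inner_eq, hE.diag hc v u]
  rcases hs with h | h <;> subst h <;> ring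

theorem near (hc : IsPCC c) (hE : Mode c a ξ E) {δ : ℝ}
    (hδ : ∀ u, (1 - δ) * (deg c a u : ℝ) ≤ |ξ|) (u : V) :
    ∀ k : ℕ, ∀ v ∈ ball (sym c a) u k, ∃ s : ℝ, (s = 1 ∨ s = -1) ∧
      ‖X E u - s • X E v‖ ≤ k * Real.sqrt (2 * δ * E u u) := by
  have hstep : ∀ v w, (sym c a).Adj v w → ∃ s : ℝ, (s = 1 ∨ s = -1) ∧
      ‖X E v - s • X E w‖ ≤ Real.sqrt (2 * δ * E u u) := by
    intro v w hvw
    have hk := hE.key hvw
    have hdpos : 0 < (deg c a v : ℝ) := by
      have : 0 < deg c a v := by
        unfold deg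
        apply Finset.card_pos.mpr
        refine ⟨w, ?_⟩
        simp only [Finset.mem_filter, Finset.mem_univ, true_and]
        simpa [sym, SimpleGraph.fromRel_adj] using hvw
      exact_mod_cast this
    have hpos := hE.pos hc v
    have hd := hE.diag hc v u
    rcases le_or_gt 0 ξ with h | h
    · refine ⟨1, Or.inl rfl, ?_⟩
      apply Real.le_sqrt_of_sq_le
      rw [X_norm hc hE (Or.inl rfl)]
      have h1 : (1 - δ) * (deg c a v : ℝ) ≤ ξ := by
        have := hδ v
        rwa [abs_of_nonneg h] at this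
      have h2 : (1 - δ) * E v v ≤ E v w := by
        have : (deg c a v : ℝ) * ((1 - δ) * E v v) ≤ (deg c a v : ℝ) * E v w := by
          rw [hk]
          nlinarith
        exact le_of_mul_le_mul_left this hdpos
      rw [← hd]
      linarith
    · refine ⟨-1, Or.inr rfl, ?_⟩
      apply Real.le_sqrt_of_sq_le
      rw [X_norm hc hE (Or.inr rfl)]
      have h1 : (1 - δ) * (deg c a v : ℝ) ≤ -ξ := by
        have := hδ v
        rwa [abs_of_neg h] at this
      have h2 : (1 - δ) * E v v ≤ - E v w := by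
        have : (deg c a v : ℝ) * ((1 - δ) * E v v) ≤ (deg c a v : ℝ) * (- E v w) := by
          rw [mul_neg, hk]
          nlinarith
        exact le_of_mul_le_mul_left this hdpos
      rw [← hd]
      linarith
  intro k
  induction k with
  | zero =>
    intro v hv
    have : v = u := by simpa [ball] using hv
    subst this
    exact ⟨1, Or.inl rfl, by simp⟩
  | succ k ih =>
    intro v hv
    have hv' : v ∈ ball (sym c a) u k ∨ ∃ w ∈ ball (sym c a) u k, (sym c a).Adj w v := by
      simpa [ball] using hv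
    rcases hv' with h | ⟨w, hw, hadj⟩
    · obtain ⟨s, hs, hn⟩ := ih v h
      refine ⟨s, hs, hn.trans ?_⟩
      have := Real.sqrt_nonneg (2 * δ * E u u)
      push_cast
      nlinarith
    · obtain ⟨s, hs, hn⟩ := ih w hw
      obtain ⟨s', hs', hn'⟩ := hstep w v hadj
      refine ⟨s * s', ?_, ?_⟩
      · rcases hs with h | h <;> rcases hs' with h' | h' <;> subst h <;> subst h' <;> simp
      · have h1 : X E u - (s * s') • X E v = (X E u - s • X E w) + s • (X E w - s' • X E v) := by
          rw [smul_sub, smul_smul]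
          abel
        rw [h1]
        have h2 : ‖s • (X E w - s' • X E v)‖ = ‖X E w - s' • X E v‖ := by
          rw [norm_smul]
          rcases hs with h | h <;> subst h <;> simp
        calc _ ≤ ‖X E u - s • X E w‖ + ‖s • (X E w - s' • X E v)‖ := norm_add_le _ _
          _ ≤ k * Real.sqrt (2 * δ * E u u) + Real.sqrt (2 * δ * E u u) := by
              rw [h2]; exact add_le_add hn hn'
          _ = _ := by push_cast; ring

theorem near' (hc : IsPCC c) (hE : Mode c a ξ E) {δ : ℝ} (hδ0 : 0 ≤ δ)
    (hδ : ∀ u, (1 - δ) * (deg c a u : ℝ) ≤ |ξ|) (u : V) {K : ℕ} (hK : (K : ℝ) ^ 2 * δ ≤ 1 / 8)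
    {v : V} (hv : v ∈ ball (sym c a) u K) : ∃ s : ℝ, (s = 1 ∨ s = -1) ∧
      ‖X E u - s • X E v‖ ≤ Real.sqrt (E u u) / 2 ∧ 7 / 8 * E u u ≤ s * E u v := by
  obtain ⟨s, hs, hn⟩ := near hc hE hδ u K v hv
  have hpos := hE.pos hc u
  have h1 : (K * Real.sqrt (2 * δ * E u u)) ^ 2 ≤ E u u / 4 := by
    rw [mul_pow, Real.sq_sqrt (by positivity)]
    nlinarith
  have h2 : ‖X E u - s • X E v‖ ^ 2 ≤ E u u / 4 :=
    (pow_le_pow_left₀ (norm_nonneg _) hn 2).trans h1
  refine ⟨s, hs, ?_, ?_⟩
  · apply abs_le_of_sq_le_sq' _ (by positivity) |>.2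
    rw [div_pow, Real.sq_sqrt hpos.le]
    linarith
  · rw [X_norm hc hE hs] at h2
    linarith

/-- Off-diagonal values are smaller than the diagonal value. -/
theorem Mode.lt (hc : IsPCC c) (hE : Mode c a ξ E) {u v : V} (huv : u ≠ v) : E u v < E u u := by
  have hle : ∀ x y, E x y ≤ E x x := by
    intro x y
    have h1 := hE.cs x x y
    have h2 := hE.diag hc x y
    have h3 := hE.pos hc x
    rw [← h2] at h1
    by_contra hcon
    push Not at hcon
    nlinarith [sq_nonneg (E x x - E x y)]
  refine lt_of_le_of_ne (hle u v) ?_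
  intro heq
  have ht : IsEdgeColor c (c u v) := fun x => hc.coherent.diag_ne x u v huv
  -- rows are equal along `c u v`
  have hrow : ∀ x y, (sym c (c u v)).Adj x y → ∀ z, E x z = E y z := by
    intro x y hxy z
    have hxy' : x ≠ y ∧ (c x y = c u v ∨ c y x = c u v) := by
      simpa [sym, SimpleGraph.fromRel_adj] using hxy
    have h1 : E x y = E x x := by
      rcases hxy'.2 with h | h
      · rw [hE.cm.eq h, heq, hE.diag hc u x]
      · rw [hE.symm x y, hE.cm.eq h, heq, hE.diag hc u x]
    have h2 := hE.cs z x y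
    rw [h1, ← hE.diag hc x y] at h2
    have h3 : (E z x - E z y) ^ 2 ≤ 0 := by nlinarith
    have h4 : E z x - E z y = 0 := by
      have := le_antisymm h3 (sq_nonneg _)
      exact pow_eq_zero_iff (two_ne_zero) |>.mp this
    rw [hE.symm x z, hE.symm y z]
    linarith
  have hall : ∀ y, E u y = E u u := by
    intro y
    have : y ∈ (Finset.univ.filter fun y => E y u = E u u) := by
      rw [closed_eq_univ (hc.conn _ ht) (u := u)
        (S := Finset.univ.filter fun y => E y u = E u u) (by simp)]
      · exact Finset.mem_univ _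
      · intro x hx y hxy
        simp only [Finset.mem_filter, Finset.mem_univ, true_and] at hx ⊢
        rw [← hrow x y hxy u, hx]
    rw [hE.symm u y]
    simpa using this
  have h5 := hE.row u
  simp_rw [hall] at h5
  rw [Finset.sum_const, nsmul_eq_mul, mul_eq_zero] at h5
  rcases h5 with h | h
  · have : 0 < (Finset.univ : Finset V).card := Finset.card_pos.mpr ⟨u, Finset.mem_univ _⟩
    have h6 : (0 : ℝ) < (Finset.univ : Finset V).card := by exact_mod_cast this
    linarith
  · have := hE.pos hc u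
    linarith

/-- The ball does not cover everything. -/
theorem ball_ne_univ (hc : IsPCC c) (hn : 3 ≤ Fintype.card V) (hE : Mode c a ξ E) {δ : ℝ}
    (hδ0 : 0 ≤ δ)
    (hδ : ∀ u, (1 - δ) * (deg c a u : ℝ) ≤ |ξ|) (u : V) {K : ℕ} (hK : (K : ℝ) ^ 2 * δ ≤ 1 / 8) :
    ball (sym c a) u K ≠ univ := by
  intro hcov
  have hpos := hE.pos hc u
  have h0 : ∀ v, ∃ s : ℝ, (s = 1 ∨ s = -1) ∧
      ‖X E u - s • X E v‖ ≤ Real.sqrt (E u u) / 2 ∧ 7 / 8 * E u u ≤ s * E u v :=
    fun v => near' hc hE hδ0 hδ u hK (hcov ▸ Finset.mem_univ v)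
  choose s hs hnorm hval using h0
  have hpair : ∀ v v', 0 < s v * s v' * E v v' := by
    intro v v'
    have h1 : ‖s v • X E v - s v' • X E v'‖ ≤ Real.sqrt (E u u) := by
      have : s v • X E v - s v' • X E v'
          = (X E u - s v' • X E v') - (X E u - s v • X E v) := by abel
      rw [this]
      calc _ ≤ ‖X E u - s v' • X E v'‖ + ‖X E u - s v • X E v‖ := norm_sub_le _ _
        _ ≤ Real.sqrt (E u u) / 2 + Real.sqrt (E u u) / 2 := add_le_add (hnorm v') (hnorm v)
        _ = _ := by ring
    have h2 : ‖s v • X E v - s v' • X E v'‖ = ‖X E v - (s v * s v') • X E v'‖ := by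
      have : s v • X E v - s v' • X E v' = s v • (X E v - (s v * s v') • X E v') := by
        rw [smul_sub, smul_smul]
        congr 2
        rcases hs v with h | h <;> rw [h] <;> ring
      rw [this, norm_smul]
      rcases hs v with h | h <;> rw [h] <;> simp
    have h3 : ‖X E v - (s v * s v') • X E v'‖ ^ 2 ≤ E u u := by
      rw [← h2]
      calc _ ≤ (Real.sqrt (E u u)) ^ 2 := pow_le_pow_left₀ (norm_nonneg _) h1 2
        _ = E u u := Real.sq_sqrt hpos.le
    have h4 : s v * s v' = 1 ∨ s v * s v' = -1 := by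
      rcases hs v with h | h <;> rcases hs v' with h' | h' <;> rw [h, h'] <;> simp
    rw [X_norm hc hE h4, hE.diag hc v u] at h3
    linarith
  obtain ⟨x, y, z, hxy, hxz, hyz⟩ := Fintype.two_lt_card_iff.mp (by omega : 2 < Fintype.card V)
  -- two distinct vertices with the same sign
  obtain ⟨p, q, hpq, hspq⟩ : ∃ p q : V, p ≠ q ∧ s p = s q := by
    rcases hs x with hx | hx <;> rcases hs y with hy | hy <;> rcases hs z with hz | hz
    all_goals first
      | exact ⟨x, y, hxy, hx.trans hy.symm⟩
      | exact ⟨x, z, hxz, hx.trans hz.symm⟩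
      | exact ⟨y, z, hyz, hy.trans hz.symm⟩
  have ht : IsEdgeColor c (c p q) := fun v => hc.coherent.diag_ne v p q hpq
  have hEpq : 0 < E p q := by
    have := hpair p q
    rw [hspq] at this
    rcases hs q with h | h <;> rw [h] at this <;> linarith
  have hsame : ∀ v w, (sym c (c p q)).Adj v w → s v = s w := by
    intro v w hvw
    have hvw' : v ≠ w ∧ (c v w = c p q ∨ c w v = c p q) := by
      simpa [sym, SimpleGraph.fromRel_adj] using hvw
    have h1 : 0 < E v w := by
      rcases hvw'.2 with h | h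
      · rw [hE.cm.eq h]; exact hEpq
      · rw [hE.symm, hE.cm.eq h]; exact hEpq
    have h2 := hpair v w
    rcases hs v with h | h <;> rcases hs w with h' | h' <;> rw [h, h'] at h2 ⊢ <;> linarith
  have hall : ∀ y, s y = s u := by
    intro y
    have : y ∈ (Finset.univ.filter fun y => s y = s u) := by
      rw [closed_eq_univ (hc.conn _ ht) (u := u)
        (S := Finset.univ.filter fun y => s y = s u) (by simp)]
      · exact Finset.mem_univ _
      · intro x hx y hxy
        simp only [Finset.mem_filter, Finset.mem_univ, true_and] at hx ⊢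
        rw [← hsame x y hxy, hx]
    simpa using this
  have hposall : ∀ y, 0 < E u y := by
    intro y
    have := hpair u y
    rw [hall y] at this
    rcases hs u with h | h <;> rw [h] at this <;> linarith
  have := hE.row u
  have h6 : 0 < ∑ v, E u v := Finset.sum_pos (fun y _ => hposall y) ⟨u, Finset.mem_univ _⟩
  linarith

end Pool.Agent.Helper26.CC
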