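import Pool.Agent.Helper26.CC.Core

/-!
The bound on the rank of a mode by the number of pairs cut by two adjacent vertices.
-/

set_option linter.unusedSectionVars false
set_option linter.unusedVariables false

namespace Pool.Agent.Helper26.CC

open Finset Matrix

variable {V : Type*} [Fintype V] [DecidableEq V] {r : ℕ}
variable {c : V → V → Fin r} {a : Fin r} {ξ : ℝ} {E : Matrix V V ℝ}

/-- Indicator matrix of a colour. -/
def ind (c : V → V → Fin r) (t : Fin r) : Matrix V V ℝ :=
  Matrix.of fun u v => if c u v = t then 1 else 0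

theorem ind_CM (c : V → V → Fin r) (t : Fin r) : CM c (ind c t) :=
  ⟨fun i => if i = t then 1 else 0, fun u v => by simp [ind]⟩

/-- The Gram matrix of the difference vectors along colour `t`. -/
noncomputable def gram (c : V → V → Fin r) (t : Fin r) (E : Matrix V V ℝ) : Matrix V V ℝ :=
  Matrix.of fun w w' => ∑ p ∈ univ.filter (fun p : V × V => c p.1 p.2 = t),
    (E w p.1 - E w p.2) * (E w' p.1 - E w' p.2)

theorem sum_T (c : V → V → Fin r) (t : Fin r) (g : V → V → ℝ) :
    ∑ p ∈ univ.filter (fun p : V × V => c p.1 p.2 = t), g p.1 p.2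
      = ∑ u, ∑ v, ind c t u v * g u v := by
  rw [Finset.sum_filter, Fintype.sum_prod_type]
  apply Finset.sum_congr rfl
  intro u _
  apply Finset.sum_congr rfl
  intro v _
  unfold ind
  simp only [Matrix.of_apply]
  split_ifs <;> simp

theorem ind_row (c : V → V → Fin r) (t : Fin r) (u : V) :
    ∑ v, ind c t u v = (univ.filter fun x => c u x = t).card := by
  unfold ind
  simp only [Matrix.of_apply]
  rw [Finset.card_filter, Nat.cast_sum]
  apply Finset.sum_congr rfl
  intro v _
  split_ifs <;> simp

theorem ind_col (c : V → V → Fin r) (t : Fin r) (v : V) :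
    ∑ u, ind c t u v = (univ.filter fun x => c x v = t).card := by
  unfold ind
  simp only [Matrix.of_apply]
  rw [Finset.card_filter, Nat.cast_sum]
  apply Finset.sum_congr rfl
  intro u _
  split_ifs <;> simp

theorem gram_CM (hc : IsPCC c) (hE : Mode c a ξ E) (t : Fin r) (x0 : V) :
    CM c (gram c t E) := by
  classical
  have hF : CM c (E * ind c t * E) :=
    (hE.cm.mul hc.coherent (ind_CM c t)).mul hc.coherent hE.cm
  have hFt := hF.transpose hc.coherent
  have key : gram c t E = (((univ.filter fun x => c x0 x = t).card : ℝ)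
      + ((univ.filter fun x => c x x0 = t).card : ℝ)) • E - E * ind c t * E
      - (E * ind c t * E)ᵀ := by
    ext w w'
    simp only [gram, Matrix.of_apply, Matrix.sub_apply, Matrix.smul_apply,
      Matrix.transpose_apply, smul_eq_mul]
    refine (sum_T c t (fun u v : V => (E w u - E w v) * (E w' u - E w' v))).trans ?_
    have h1 : ∀ u v : V, ind c t u v * ((E w u - E w v) * (E w' u - E w' v))
        = ind c t u v * (E w u * E w' u) + ind c t u v * (E w v * E w' v)
          - E w u * ind c t u v * E v w' - E w' u * ind c t u v * E v w := by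
      intro u v
      rw [hE.symm v w', hE.symm v w]
      ring
    simp_rw [h1, Finset.sum_sub_distrib, Finset.sum_add_distrib]
    have hF1 : ∀ x y : V, (E * ind c t * E) x y = ∑ u, ∑ v, E x u * ind c t u v * E v y := by
      intro x y
      rw [Matrix.mul_apply]
      simp_rw [Matrix.mul_apply, Finset.sum_mul]
      rw [Finset.sum_comm]
    have hA : ∑ u, ∑ v, ind c t u v * (E w u * E w' u)
        = ((univ.filter fun x => c x0 x = t).card : ℝ) * E w w' := by
      rw [← hE.inner_eq w w', Finset.mul_sum]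
      apply Finset.sum_congr rfl
      intro u _
      rw [← Finset.sum_mul, ind_row, outdeg_const hc t u x0]
    have hB : ∑ u, ∑ v, ind c t u v * (E w v * E w' v)
        = ((univ.filter fun x => c x x0 = t).card : ℝ) * E w w' := by
      rw [Finset.sum_comm, ← hE.inner_eq w w', Finset.mul_sum]
      apply Finset.sum_congr rfl
      intro v _
      rw [← Finset.sum_mul, ind_col, indeg_const hc t v x0]
    rw [hA, hB, ← hF1 w w', ← hF1 w' w]
    ring
  rw [key]
  exact ((hE.cm.smul _).sub hF).sub hFt

theorem gram_symm (c : V → V → Fin r) (t : Fin r) (E : Matrix V V ℝ) (w w' : V) :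
    gram c t E w w' = gram c t E w' w := by
  simp only [gram, Matrix.of_apply]
  apply Finset.sum_congr rfl
  intro p _
  ring

theorem gram_eig (hE : Mode c a ξ E) (t : Fin r) (w w' : V) :
    ∑ x, adj c a w x * gram c t E x w' = ξ * gram c t E w w' := by
  simp only [gram, Matrix.of_apply]
  simp_rw [Finset.mul_sum]
  rw [Finset.sum_comm]
  apply Finset.sum_congr rfl
  intro p _
  have h1 := hE.eig w p.1
  have h2 := hE.eig w p.2
  have h3 : ∑ x, adj c a w x * ((E x p.1 - E x p.2) * (E w' p.1 - E w' p.2))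
      = (∑ x, adj c a w x * E x p.1 - ∑ x, adj c a w x * E x p.2) * (E w' p.1 - E w' p.2) := by
    rw [← Finset.sum_sub_distrib, Finset.sum_mul]
    apply Finset.sum_congr rfl
    intro x _
    ring
  rw [h3, h1, h2]
  ring

theorem gram_diag (hc : IsPCC c) (hE : Mode c a ξ E) {t : Fin r} {w v0 : V} (hv0 : c w v0 = t) :
    gram c t E w w = 2 * (val c t w : ℝ) * (E w w - E w v0) := by
  classical
  have hN : ∀ x, gram c t E x x = gram c t E w w := fun x => (gram_CM hc hE t w).eq (hc.homog x w)
  have hsum : ∑ x, gram c t E x x = (Fintype.card V : ℝ) * gram c t E w w := by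
    simp_rw [hN]
    rw [Finset.sum_const, nsmul_eq_mul, Finset.card_univ]
  have hsum2 : ∑ x, gram c t E x x
      = (Fintype.card V : ℝ) * (2 * (val c t w : ℝ) * (E w w - E w v0)) := by
    simp only [gram, Matrix.of_apply]
    rw [Finset.sum_comm]
    have h1 : ∀ p ∈ univ.filter (fun p : V × V => c p.1 p.2 = t),
        ∑ x, (E x p.1 - E x p.2) * (E x p.1 - E x p.2) = 2 * (E w w - E w v0) := by
      intro p hp
      have hp' : c p.1 p.2 = t := (Finset.mem_filter.mp hp).2
      have h2 : ∀ x, (E x p.1 - E x p.2) * (E x p.1 - E x p.2)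
          = E p.1 x * E p.1 x + E p.2 x * E p.2 x - 2 * (E p.1 x * E p.2 x) := by
        intro x
        rw [hE.symm p.1 x, hE.symm p.2 x]
        ring
      simp_rw [h2, Finset.sum_sub_distrib, Finset.sum_add_distrib, ← Finset.mul_sum]
      rw [hE.inner_eq, hE.inner_eq, hE.inner_eq, hE.diag hc p.1 w, hE.diag hc p.2 w,
        hE.cm.eq (hp'.trans hv0.symm)]
      ring
    rw [Finset.sum_congr rfl h1, Finset.sum_const, nsmul_eq_mul]
    have h3 : ((univ.filter (fun p : V × V => c p.1 p.2 = t)).card : ℝ)
        = (Fintype.card V : ℝ) * (val c t w : ℝ) := by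
      have h4 : ((univ.filter (fun p : V × V => c p.1 p.2 = t)).card : ℝ)
          = ∑ p ∈ univ.filter (fun p : V × V => c p.1 p.2 = t), (fun _ _ : V => (1 : ℝ)) p.1 p.2 := by
        simp
      rw [h4, sum_T c t (fun _ _ => (1 : ℝ))]
      simp only [mul_one]
      have h5 : ∀ u, ∑ v, ind c t u v = (val c t w : ℝ) := by
        intro u
        rw [ind_row, outdeg_const hc t u w]
        rfl
      simp_rw [h5]
      rw [Finset.sum_const, nsmul_eq_mul, Finset.card_univ]
    rw [h3]
    ring
  have hcard : (0 : ℝ) < Fintype.card V := by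
    exact_mod_cast Fintype.card_pos_iff.mpr ⟨w⟩
  exact mul_left_cancel₀ hcard.ne' (hsum.symm.trans hsum2)

theorem cut_bound (hc : IsPCC c) (hE : Mode c a ξ E) {t : Fin r} (ht : IsEdgeColor c t) {δ : ℝ}
    (hδ : ∀ u, (1 - δ) * (deg c a u : ℝ) ≤ |ξ|) {w w' : V} (hadj : (sym c a).Adj w w') :
    (1 - 2 * δ) * (val c t w : ℝ) ≤ both c t w w' * E w w := by
  classical
  have hpos := hE.pos hc w
  rcases Nat.eq_zero_or_pos (val c t w) with h0 | h0
  · rw [h0]
    simp only [Nat.cast_zero, mul_zero]
    positivity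
  obtain ⟨v0, hv0⟩ : ∃ v0, c w v0 = t := by
    unfold val at h0
    obtain ⟨v0, hv0⟩ := Finset.card_pos.mp h0
    exact ⟨v0, (Finset.mem_filter.mp hv0).2⟩
  have hwv : w ≠ v0 := by
    rintro rfl
    exact ht w hv0
  have hlt : E w v0 < E w w := hE.lt hc hwv
  have hNd := gram_diag hc hE hv0
  set N0 := gram c t E w w with hN0
  have hdpos : 0 < (deg c a w : ℝ) := by
    have : 0 < deg c a w := by
      unfold deg
      apply Finset.card_pos.mpr
      refine ⟨w', ?_⟩
      simp only [Finset.mem_filter, Finset.mem_univ, true_and]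
      simpa [sym, SimpleGraph.fromRel_adj] using hadj
    exact_mod_cast this
  have hNpos : 0 ≤ N0 := by
    rw [hNd]
    have : 0 ≤ E w w - E w v0 := by linarith
    positivity
  have hkey : (deg c a w : ℝ) * gram c t E w w' = ξ * N0 :=
    key (gram_CM hc hE t w) (gram_symm c t E) (gram_eig hE t) hadj
  have hN' : gram c t E w' w' = N0 := (gram_CM hc hE t w).eq (hc.homog w' w)
  -- choose the sign
  obtain ⟨s, hs, hsN⟩ : ∃ s : ℝ, (s = 1 ∨ s = -1) ∧ (1 - δ) * N0 ≤ s * gram c t E w w' := by
    have h2 := hδ w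
    rcases le_or_gt 0 ξ with h | h
    · refine ⟨1, Or.inl rfl, ?_⟩
      rw [abs_of_nonneg h] at h2
      have : (deg c a w : ℝ) * ((1 - δ) * N0) ≤ (deg c a w : ℝ) * (1 * gram c t E w w') := by
        rw [one_mul, hkey]
        nlinarith
      exact le_of_mul_le_mul_left this hdpos
    · refine ⟨-1, Or.inr rfl, ?_⟩
      rw [abs_of_neg h] at h2
      have : (deg c a w : ℝ) * ((1 - δ) * N0) ≤ (deg c a w : ℝ) * (-1 * gram c t E w w') := by
        have h3 : (deg c a w : ℝ) * (-1 * gram c t E w w') = -(ξ * N0) := by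
          rw [← hkey]; ring
        rw [h3]
        nlinarith
      exact le_of_mul_le_mul_left this hdpos
  set T := univ.filter (fun p : V × V => c p.1 p.2 = t) with hT
  have hsq : ∑ p ∈ T, ((E w p.1 - E w p.2) - s * (E w' p.1 - E w' p.2)) ^ 2 ≤ 2 * δ * N0 := by
    have h1 : ∀ p : V × V, ((E w p.1 - E w p.2) - s * (E w' p.1 - E w' p.2)) ^ 2
        = (E w p.1 - E w p.2) * (E w p.1 - E w p.2)
          - 2 * s * ((E w p.1 - E w p.2) * (E w' p.1 - E w' p.2))
          + s ^ 2 * ((E w' p.1 - E w' p.2) * (E w' p.1 - E w' p.2)) := by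
      intro p; ring
    simp_rw [h1, Finset.sum_add_distrib, Finset.sum_sub_distrib, ← Finset.mul_sum]
    have h2 : ∑ p ∈ T, (E w p.1 - E w p.2) * (E w p.1 - E w p.2) = N0 := rfl
    have h3 : ∑ p ∈ T, (E w p.1 - E w p.2) * (E w' p.1 - E w' p.2) = gram c t E w w' := rfl
    have h4 : ∑ p ∈ T, (E w' p.1 - E w' p.2) * (E w' p.1 - E w' p.2) = N0 := by
      rw [← hN']; rfl
    rw [h2, h3, h4]
    have h5 : s ^ 2 = 1 := by rcases hs with h | h <;> rw [h] <;> norm_num
    rw [h5]
    linarith
  -- split according to whether `w'` distinguishes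
  have hsplit : N0 = ∑ p ∈ T.filter (fun p => c w' p.1 = c w' p.2), (E w p.1 - E w p.2) ^ 2
      + ∑ p ∈ T.filter (fun p => ¬ c w' p.1 = c w' p.2), (E w p.1 - E w p.2) ^ 2 := by
    rw [Finset.sum_filter_add_sum_filter_not]
    rw [hN0]
    simp only [gram, Matrix.of_apply]
    apply Finset.sum_congr rfl
    intro p _
    ring
  have hA : ∑ p ∈ T.filter (fun p => c w' p.1 = c w' p.2), (E w p.1 - E w p.2) ^ 2
      ≤ 2 * δ * N0 := by
    refine le_trans ?_ hsq
    calc _ = ∑ p ∈ T.filter (fun p => c w' p.1 = c w' p.2),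
          ((E w p.1 - E w p.2) - s * (E w' p.1 - E w' p.2)) ^ 2 := by
          apply Finset.sum_congr rfl
          intro p hp
          have := hE.cm.eq (Finset.mem_filter.mp hp).2
          rw [this]
          ring
      _ ≤ _ := by
          apply Finset.sum_le_sum_of_subset_of_nonneg (Finset.filter_subset _ _)
          intro p _ _
          positivity
  have hB : ∑ p ∈ T.filter (fun p => ¬ c w' p.1 = c w' p.2), (E w p.1 - E w p.2) ^ 2
      ≤ both c t w w' * (E w w * (2 * (E w w - E w v0))) := by
    have h1 : ∀ p ∈ T.filter (fun p => ¬ c w' p.1 = c w' p.2), (E w p.1 - E w p.2) ^ 2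
        ≤ if c w p.1 ≠ c w p.2 then E w w * (2 * (E w w - E w v0)) else 0 := by
      intro p hp
      split_ifs with h
      · have hp' : c p.1 p.2 = t := (Finset.mem_filter.mp (Finset.mem_filter.mp hp).1).2
        have := hE.cs w p.1 p.2
        rw [hE.diag hc p.1 w, hE.diag hc p.2 w, hE.cm.eq (hp'.trans hv0.symm)] at this
        calc _ ≤ _ := this
          _ = _ := by ring
      · have h' : c w p.1 = c w p.2 := by
          by_contra h''
          exact h h''
        rw [hE.cm.eq h']
        simp
    refine (Finset.sum_le_sum h1).trans ?_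
    rw [← Finset.sum_filter, Finset.sum_const, nsmul_eq_mul, Finset.filter_filter, hT,
      Finset.filter_filter]
    have h2 : (univ.filter fun p : V × V => c p.1 p.2 = t ∧ ¬c w' p.1 = c w' p.2 ∧
        c w p.1 ≠ c w p.2).card = both c t w w' := by
      unfold both
      congr 1
      ext p
      simp only [Finset.mem_filter, Finset.mem_univ, true_and]
      tauto
    rw [h2]
  have hfin : (1 - 2 * δ) * N0 ≤ both c t w w' * (E w w * (2 * (E w w - E w v0))) := by
    linarith
  rw [hNd] at hfin
  have h6 : 0 < 2 * (E w w - E w v0) := by linarith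
  have h7 : ((1 - 2 * δ) * (val c t w : ℝ)) * (2 * (E w w - E w v0))
      ≤ (both c t w w' * E w w) * (2 * (E w w - E w v0)) := by
    calc _ = (1 - 2 * δ) * (2 * (val c t w : ℝ) * (E w w - E w v0)) := by ring
      _ ≤ _ := hfin
      _ = _ := by ring
  exact le_of_mul_le_mul_right h7 h6

end Pool.Agent.Helper26.CC
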