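import Mathlib

/-!
Coherent configurations, primitive coherent configurations, distinguishing numbers, and the
quantity `xi` (largest absolute value of an adjacency eigenvalue other than the first one).
-/

namespace Pool.Agent.Helper26.CC

open Finset

variable {V : Type*} [Fintype V] [DecidableEq V] {r : ℕ}

/-- `c` is a coherent configuration on `V` with colours in `Fin r`. -/
structure IsCoherent (c : V → V → Fin r) : Prop where
  diag_ne : ∀ v u w : V, u ≠ w → c v v ≠ c u w
  inv : ∀ i : Fin r, ∃ j : Fin r, ∀ u v : V, c u v = i → c v u = j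
  coh : ∀ i j t : Fin r, ∃ p : ℕ, ∀ u v : V, c u v = t →
    (univ.filter fun w => c u w = i ∧ c w v = j).card = p

/-- The symmetrization of the constituent of colour `i`: `u ∼ v` iff `u ≠ v` and
`c u v = i` or `c v u = i`. -/
def sym (c : V → V → Fin r) (i : Fin r) : SimpleGraph V :=
  SimpleGraph.fromRel fun u v => c u v = i

/-- `i` is an edge colour: it is not the colour of a pair `(v, v)`. -/
def IsEdgeColor (c : V → V → Fin r) (i : Fin r) : Prop := ∀ v, c v v ≠ i

/-- `c` is a primitive coherent configuration: coherent, homogeneous (all pairs `(v, v)` have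
the same colour), and every constituent of an edge colour is connected. -/
structure IsPCC (c : V → V → Fin r) : Prop where
  coherent : IsCoherent c
  homog : ∀ u v : V, c u u = c v v
  conn : ∀ i : Fin r, IsEdgeColor c i → (sym c i).Connected

/-- `D(u,v)`: the number of vertices `w` with `c w u ≠ c w v`. -/
def dnum (c : V → V → Fin r) (u v : V) : ℕ := (univ.filter fun w => c w u ≠ c w v).card

/-- `D_min`: the least `D(u,v)` over pairs `u ≠ v`. -/
noncomputable def dmin (c : V → V → Fin r) : ℕ := sInf {m | ∃ u v : V, u ≠ v ∧ dnum c u v = m}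

/-- The degree at `u` of the symmetrized constituent of colour `i`. -/
def deg (c : V → V → Fin r) (i : Fin r) (u : V) : ℕ :=
  (univ.filter fun v => u ≠ v ∧ (c u v = i ∨ c v u = i)).card

/-- The out-degree at `u` of the constituent of colour `i`. -/
def val (c : V → V → Fin r) (i : Fin r) (u : V) : ℕ := (univ.filter fun v => c u v = i).card

/-- The number of pairs `(u, v)` of colour `t` that are distinguished by `w` and by `w'`. -/
def both (c : V → V → Fin r) (t : Fin r) (w w' : V) : ℕ :=
  (univ.filter fun p : V × V =>
    c p.1 p.2 = t ∧ c w p.1 ≠ c w p.2 ∧ c w' p.1 ≠ c w' p.2).card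

open Classical in
/-- `ξ(G) = max_{2 ≤ j ≤ n} |ξ_j|`, where `ξ_1 ≥ ξ_2 ≥ ⋯ ≥ ξ_n` are the adjacency eigenvalues
of `G` with multiplicity (here indexed by `0, …, n-1`). -/
noncomputable def xi (G : SimpleGraph V) : ℝ :=
  ⨆ j : {j : Fin (Fintype.card V) // (j : ℕ) ≠ 0},
    |(G.isHermitian_adjMatrix (R := ℝ)).eigenvalues₀ j|

end Pool.Agent.Helper26.CC
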