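import Pool.Agent.Helper26.CC.Amp

/-!
Final forms of the general results.
-/

set_option linter.unusedSectionVars false
set_option linter.unusedVariables false

namespace Pool.Agent.Helper26.CC

open Finset Matrix

variable {V : Type*} [Fintype V] [DecidableEq V] {r : ℕ}
variable {c : V → V → Fin r} {a : Fin r} {ξ : ℝ} {E : Matrix V V ℝ}

/-- Closed form for eigenpairs. -/
theorem eig_closed (hc : IsPCC c) (hn : 3 ≤ Fintype.card V) (ha : IsEdgeColor c a) {t : Fin r}
    (ht : IsEdgeColor c t) {w w' : V} (hww : c w w' = a) {f : V → ℝ} (hf0 : f ≠ 0)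
    (hfs : ∑ v, f v = 0) (hf : adj c a *ᵥ f = ξ • f) :
    |ξ| ≤ (1 - 1 / 8 *
      ((deg c a w * val c t w : ℝ) / (6 * both c t w w' + deg c a w * val c t w)) ^ 2)
      * deg c a w := by
  classical
  have hne : w ≠ w' := by
    rintro rfl
    exact ha w hww
  have hadj : (sym c a).Adj w w' := by
    simp [sym, SimpleGraph.fromRel_adj, hne, hww]
  set d : ℝ := (deg c a w : ℝ) with hd
  set v : ℝ := (val c t w : ℝ) with hv
  set b : ℝ := (both c t w w' : ℝ) with hb
  have hdpos : 0 < d := by rw [hd]; exact_mod_cast deg_pos hc hn ha w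
  have hvpos : 0 < v := by rw [hv]; exact_mod_cast val_pos hc hn ht w
  have hb0 : 0 ≤ b := by rw [hb]; positivity
  set K : ℕ := ⌊6 * b / ((d + 1) * v)⌋₊ + 1 with hKdef
  have hy : 0 < (d + 1) * v := by positivity
  have hK1 : 1 ≤ K := by omega
  have hKr : (1 : ℝ) ≤ K := by exact_mod_cast hK1
  have hKlow : 6 * b / ((d + 1) * v) ≤ K := by
    rw [hKdef]
    push_cast
    exact (Nat.lt_floor_add_one _).le
  have hKup : (K : ℝ) ≤ 6 * b / ((d + 1) * v) + 1 := by
    rw [hKdef]
    push_cast
    have := Nat.floor_le (show 0 ≤ 6 * b / ((d + 1) * v) by positivity)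
    linarith
  have hK6 : 6 * b ≤ K * (d + 1) * v := by
    rw [div_le_iff₀ hy] at hKlow
    linarith
  have h1 := gap_K hc hn ha ht hadj hK1 hK6 hf0 hfs hf
  refine h1.trans ?_
  apply mul_le_mul_of_nonneg_right _ hdpos.le
  have h2 : (d * v) / (6 * b + d * v) ≤ 1 / (K : ℝ) := by
    rw [div_le_div_iff₀ (by positivity) (by positivity)]
    have h3 : (K : ℝ) * ((d + 1) * v) ≤ 6 * b + (d + 1) * v := by
      have h6 := mul_le_mul_of_nonneg_right hKup hy.le
      have h7 : (6 * b / ((d + 1) * v) + 1) * ((d + 1) * v) = 6 * b + (d + 1) * v := by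
        field_simp
      linarith
    nlinarith
  have h3 : ((d * v) / (6 * b + d * v)) ^ 2 ≤ (1 / (K : ℝ)) ^ 2 :=
    pow_le_pow_left₀ (by positivity) h2 2
  have h4 : 1 / (8 * (K : ℝ) ^ 2) = 1 / 8 * (1 / (K : ℝ)) ^ 2 := by
    field_simp
  rw [h4]
  linarith

/-- Some vertex `w` has at most `val * D(x,y)` pairs of colour `c x y` that it distinguishes. -/
theorem exists_vertex (hc : IsPCC c) (x y : V) :
    ∃ w, (both c (c x y) w w : ℝ) ≤ val c (c x y) w * dnum c x y := by
  classical
  by_contra hcon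
  push Not at hcon
  set t := c x y with ht
  have h1 : ∑ w, (both c t w w : ℝ) = (Fintype.card V : ℝ) * val c t x * dnum c x y := by
    have h2 : ∀ w, (both c t w w : ℝ) = ∑ p ∈ univ.filter (fun p : V × V => c p.1 p.2 = t),
        (if c w p.1 ≠ c w p.2 then (1 : ℝ) else 0) := by
      intro w
      unfold both
      rw [Finset.card_filter, Nat.cast_sum, Finset.sum_filter]
      apply Finset.sum_congr rfl
      intro p _
      by_cases h1 : c p.1 p.2 = t <;> by_cases h2 : c w p.1 ≠ c w p.2 <;> simp [h1, h2]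
    simp_rw [h2]
    rw [Finset.sum_comm]
    have h3 : ∀ p ∈ univ.filter (fun p : V × V => c p.1 p.2 = t),
        ∑ w, (if c w p.1 ≠ c w p.2 then (1 : ℝ) else 0) = dnum c x y := by
      intro p hp
      rw [← dnum_const hc (Finset.mem_filter.mp hp).2]
      unfold dnum
      rw [Finset.card_filter, Nat.cast_sum]
      apply Finset.sum_congr rfl
      intro w _
      split_ifs <;> simp
    rw [Finset.sum_congr rfl h3, Finset.sum_const, nsmul_eq_mul, card_T hc t x]
  have h2 : ∑ w, ((val c t w : ℝ) * dnum c x y) < ∑ w, (both c t w w : ℝ) :=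
    Finset.sum_lt_sum_of_nonempty ⟨x, mem_univ _⟩ fun w _ => hcon w
  have h3 : ∑ w, ((val c t w : ℝ) * dnum c x y)
      = (Fintype.card V : ℝ) * val c t x * dnum c x y := by
    have h4 : ∀ w, (val c t w : ℝ) = val c t x := by
      intro w
      unfold val
      rw [outdeg_const hc t w x]
    simp_rw [h4]
    rw [Finset.sum_const, nsmul_eq_mul, Finset.card_univ]
    ring
  rw [h1, h3] at h2
  exact lt_irrefl _ h2

theorem both_le (c : V → V → Fin r) (t : Fin r) (w w' : V) : both c t w w' ≤ both c t w w := by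
  unfold both
  apply Finset.card_le_card
  intro p hp
  simp only [Finset.mem_filter, Finset.mem_univ, true_and] at hp ⊢
  exact ⟨hp.1, hp.2.1, hp.2.1⟩

theorem dmin_pos (hc : IsPCC c) (hn : 3 ≤ Fintype.card V) : 0 < dmin c := by
  obtain ⟨x, y, hxy, hD⟩ := dmin_attained hn c
  rw [← hD]
  unfold dnum
  apply Finset.card_pos.mpr
  refine ⟨x, ?_⟩
  simp only [Finset.mem_filter, Finset.mem_univ, true_and]
  exact hc.coherent.diag_ne x x y hxy

theorem dnum_le (c : V → V → Fin r) (x y : V) : dnum c x y ≤ Fintype.card V := by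
  unfold dnum
  exact Finset.card_le_univ _

/-- Every edge colour: the gap in terms of the degree and `D_min`. -/
theorem every_colour (hc : IsPCC c) (hn : 3 ≤ Fintype.card V) (ha : IsEdgeColor c a) (w : V) :
    xi (sym c a) ≤ deg c a w - (deg c a w : ℝ) / 8 *
      ((deg c a w : ℝ) / (6 * dmin c + deg c a w)) ^ 2 := by
  obtain ⟨x, y, hxy, hD⟩ := dmin_attained hn c
  set t := c x y with ht
  have htE : IsEdgeColor c t := fun z => hc.coherent.diag_ne z x y hxy
  obtain ⟨w0, hw0⟩ := exists_vertex hc x y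
  rw [hD, ← ht] at hw0
  obtain ⟨w1, hw1⟩ : ∃ w1, c w0 w1 = a := by
    have := val_pos hc hn ha w0
    unfold val at this
    obtain ⟨w1, h⟩ := Finset.card_pos.mp this
    exact ⟨w1, (Finset.mem_filter.mp h).2⟩
  have h1 := gap_closed hc hn ha htE hw1
  rw [deg_const hc ha w w0]
  refine h1.trans ?_
  set d : ℝ := (deg c a w0 : ℝ) with hd
  set v : ℝ := (val c t w0 : ℝ) with hv
  set b : ℝ := (both c t w0 w1 : ℝ) with hb
  set D : ℝ := (dmin c : ℝ) with hDD
  have hdpos : 0 < d := by rw [hd]; exact_mod_cast deg_pos hc hn ha w0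
  have hvpos : 0 < v := by rw [hv]; exact_mod_cast val_pos hc hn htE w0
  have hb0 : 0 ≤ b := by rw [hb]; positivity
  have hDpos : 0 < D := by rw [hDD]; exact_mod_cast dmin_pos hc hn
  have hbv : b ≤ v * D := by
    refine le_trans ?_ hw0
    rw [hb]
    exact_mod_cast both_le c t w0 w1
  have h2 : d / (6 * D + d) ≤ (d * v) / (6 * b + d * v) := by
    rw [div_le_div_iff₀ (by positivity) (by positivity)]
    nlinarith
  have h3 : (d / (6 * D + d)) ^ 2 ≤ ((d * v) / (6 * b + d * v)) ^ 2 :=
    pow_le_pow_left₀ (by positivity) h2 2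
  have h4 := mul_le_mul_of_nonneg_left h3 (show 0 ≤ d / 8 by positivity)
  linarith

/-- The general combined bound. -/
theorem gap_general (hc : IsPCC c) (hn : 3 ≤ Fintype.card V) {s t : Fin r}
    (hs : IsEdgeColor c s) (ht : IsEdgeColor c t) {w w' : V} (hw : c w w' = t) {q : ℝ}
    (hq0 : 0 ≤ q) (hq1 : q ≤ 1)
    (hq : q * ((dnum c w w' : ℝ) * (6 * both c s w w' + deg c t w * val c s w))
      ≤ Fintype.card V * (deg c t w * val c s w : ℝ)) :
    ∃ a, IsEdgeColor c a ∧ ∀ x, xi (sym c a) ≤ (1 - q ^ 2 / 512) * deg c a x := by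
  classical
  set n : ℝ := (Fintype.card V : ℝ) with hnn
  have hnpos : 0 < n := by
    rw [hnn]
    exact_mod_cast Fintype.card_pos_iff.mpr ⟨w⟩
  set D : ℝ := (dnum c w w' : ℝ) with hDD
  have hne : w ≠ w' := by
    rintro rfl
    exact ht w hw
  have hDpos : 0 < D := by
    rw [hDD]
    have : 0 < dnum c w w' := by
      unfold dnum
      apply Finset.card_pos.mpr
      refine ⟨w, ?_⟩
      simp only [Finset.mem_filter, Finset.mem_univ, true_and]
      exact hc.coherent.diag_ne w w w' hne
    exact_mod_cast this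
  set x : ℝ := (deg c t w * val c s w : ℝ) with hx
  set b : ℝ := (both c s w w' : ℝ) with hb
  have hxpos : 0 < x := by
    rw [hx]
    have h1 : (0 : ℝ) < deg c t w := by exact_mod_cast deg_pos hc hn ht w
    have h2 : (0 : ℝ) < val c s w := by exact_mod_cast val_pos hc hn hs w
    positivity
  have hb0 : 0 ≤ b := by rw [hb]; positivity
  set l : ℝ := 1 / 8 * (x / (6 * b + x)) ^ 2 with hl
  have hratio : x / (6 * b + x) ≤ 1 := by
    rw [div_le_one (by positivity)]
    linarith
  have hl0 : 0 < l := by rw [hl]; positivity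
  have hl1 : l ≤ 1 / 8 := by
    rw [hl]
    have : (x / (6 * b + x)) ^ 2 ≤ 1 := pow_le_one₀ (by positivity) hratio
    linarith
  -- `q ≤ (n / D) * (x / (6 b + x))`
  have hqr : q ≤ n / D * (x / (6 * b + x)) := by
    rw [div_mul_div_comm, le_div_iff₀ (by positivity)]
    exact hq
  have hq2 : q ^ 2 ≤ (n / D) ^ 2 * (x / (6 * b + x)) ^ 2 := by
    rw [← mul_pow]
    exact pow_le_pow_left₀ hq0 hqr 2
  have hql : q ^ 2 / 512 ≤ l / 64 * (n / D) ^ 2 := by
    rw [hl]
    linarith
  rcases le_or_gt (4 * dnum c w w') (Fintype.card V) with h4 | h4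
  · obtain ⟨a, haE, ha⟩ := amplify hc hn ht hw h4 hl0 (by linarith) (by
      intro μ g hg0 hgs hg
      exact eig_closed hc hn ht hs hw hg0 hgs hg)
    refine ⟨a, haE, fun y => (ha y).trans ?_⟩
    apply mul_le_mul_of_nonneg_right _ (by positivity)
    have h5 : q ^ 2 / 512 ≤ min (1 / 2) (l / 64 * (n / D) ^ 2) := by
      apply le_min _ hql
      have : q ^ 2 ≤ 1 := pow_le_one₀ hq0 hq1
      linarith
    linarith
  · refine ⟨t, ht, fun y => ?_⟩
    have h1 := gap_closed hc hn ht hs hw
    rw [deg_const hc ht y w]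
    refine h1.trans ?_
    have hdpos : (0 : ℝ) < deg c t w := by exact_mod_cast deg_pos hc hn ht w
    have h5 : n / D ≤ 4 := by
      rw [div_le_iff₀ hDpos]
      have : (Fintype.card V : ℝ) < 4 * dnum c w w' := by exact_mod_cast h4
      rw [hnn, hDD]
      linarith
    have h6 : (n / D) ^ 2 ≤ 4 ^ 2 := pow_le_pow_left₀ (by positivity) h5 2
    have h7 : q ^ 2 / 512 ≤ l := by
      calc q ^ 2 / 512 ≤ l / 64 * (n / D) ^ 2 := hql
        _ ≤ l / 64 * 4 ^ 2 := mul_le_mul_of_nonneg_left h6 (by positivity)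
        _ ≤ l := by linarith
    have h8 : (deg c t w : ℝ) / 8 * (x / (6 * b + x)) ^ 2 = l * deg c t w := by
      rw [hl]; ring
    rw [← hx, ← hb, h8]
    nlinarith

/-- Q1 when some constituent, or the typical constituent, is not too small. -/
theorem large_constituent (hc : IsPCC c) (hn : 3 ≤ Fintype.card V) {C : ℝ} (hC : 0 < C)
    (hcov : (∃ u v : V, u ≠ v ∧ C * (dnum c u v : ℝ) * (dmin c : ℝ)
        ≤ Fintype.card V * (deg c (c u v) u : ℝ)) ∨
      (Fintype.card V : ℝ) ^ 2 ≤ 2 * ((univ.filter fun p : V × V => p.1 ≠ p.2 ∧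
        C * (dmin c : ℝ) ^ 2 ≤ Fintype.card V * (deg c (c p.1 p.2) p.1 : ℝ)).card : ℝ)) :
    ∃ a, IsEdgeColor c a ∧ ∀ w,
      xi (sym c a) ≤ (1 - (C / (12 + C)) ^ 2 / 512) * (deg c a w : ℝ) := by
  classical
  rcases hcov with ⟨u, v, huv, h⟩ | h
  · obtain ⟨x, y, hxy, hD⟩ := dmin_attained hn c
    set s := c x y with hs
    have hsE : IsEdgeColor c s := fun z => hc.coherent.diag_ne z x y hxy
    obtain ⟨w0, hw0⟩ := exists_vertex hc x y
    rw [hD, ← hs] at hw0
    set t := c u v with ht
    have htE : IsEdgeColor c t := fun z => hc.coherent.diag_ne z u v huv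
    obtain ⟨w1, hw1⟩ : ∃ w1, c w0 w1 = t := by
      have := val_pos hc hn htE w0
      unfold val at this
      obtain ⟨w1, h⟩ := Finset.card_pos.mp this
      exact ⟨w1, (Finset.mem_filter.mp h).2⟩
    have hbv : (both c s w0 w1 : ℝ) ≤ val c s w0 * dmin c := by
      refine le_trans ?_ hw0
      exact_mod_cast both_le c s w0 w1
    rw [deg_const hc htE u w0, dnum_const hc (hw1.symm : c u v = c w0 w1)] at h
    apply gap_general hc hn hsE htE hw1 (q := C / (12 + C)) (by positivity)
    · rw [div_le_one (by positivity)]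
      linarith
    · rw [div_mul_eq_mul_div, div_le_iff₀ (by positivity)]
      set D' : ℝ := (dnum c w0 w1 : ℝ) with hD'
      set n : ℝ := (Fintype.card V : ℝ) with hnn
      set d : ℝ := (deg c t w0 : ℝ) with hd
      set k : ℝ := (val c s w0 : ℝ) with hk
      set b : ℝ := (both c s w0 w1 : ℝ) with hb
      set D : ℝ := (dmin c : ℝ) with hDD
      have hD'0 : 0 ≤ D' := by rw [hD']; positivity
      have hk0 : 0 ≤ k := by rw [hk]; positivity
      have hd0 : 0 ≤ d := by rw [hd]; positivity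
      have hD'n : D' ≤ n := by
        rw [hD', hnn]
        exact_mod_cast dnum_le c w0 w1
      -- C * (D' * (6 b + d k)) ≤ n * (d k) * (12 + C)
      have h1 : C * (D' * (6 * b)) ≤ 6 * (n * (d * k)) := by
        calc C * (D' * (6 * b)) = 6 * C * D' * b := by ring
          _ ≤ 6 * C * D' * (k * D) := mul_le_mul_of_nonneg_left hbv (by positivity)
          _ = 6 * k * (C * D' * D) := by ring
          _ ≤ 6 * k * (n * d) := mul_le_mul_of_nonneg_left h (by positivity)
          _ = 6 * (n * (d * k)) := by ring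
      have h2 : C * (D' * (d * k)) ≤ C * (n * (d * k)) := by
        apply mul_le_mul_of_nonneg_left _ hC.le
        exact mul_le_mul_of_nonneg_right hD'n (by positivity)
      have h3 : 0 ≤ n * (d * k) := mul_nonneg (by rw [hnn]; positivity) (by positivity)
      nlinarith
  · obtain ⟨a, haE, ha⟩ := half_cover hc hn hC h
    refine ⟨a, haE, fun w => (ha w).trans ?_⟩
    have h1 : 0 ≤ (C / (12 + C)) ^ 2 * (deg c a w : ℝ) := by positivity
    nlinarith

end Pool.Agent.Helper26.CC
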