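import Pool.Agent.Helper26.CC.Defs

/-!
Bounding `xi` through eigenvectors of sum zero.
-/

set_option linter.unusedSectionVars false

namespace Pool.Agent.Helper26.CC

open Finset Matrix

variable {V : Type*} [Fintype V] [DecidableEq V] {r : ℕ}

theorem eigenvalues₀_pair {A : Matrix V V ℝ} (hA : A.IsHermitian) {d : ℝ} (hd0 : 0 ≤ d)
    (hd : A *ᵥ (fun _ => 1) = d • (fun _ => (1 : ℝ))) (j : Fin (Fintype.card V)) (hj : (j : ℕ) ≠ 0) :
    ∃ (ξ : ℝ) (f : V → ℝ), f ≠ 0 ∧ ∑ v, f v = 0 ∧ A *ᵥ f = ξ • f ∧ |hA.eigenvalues₀ j| ≤ |ξ| := by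
  classical
  set e : Fin (Fintype.card V) ≃ V := Fintype.equivOfCardEq (Fintype.card_fin _) with he
  have hev : ∀ k, hA.eigenvalues (e k) = hA.eigenvalues₀ k := by
    intro k
    unfold Matrix.IsHermitian.eigenvalues
    rw [← he, Equiv.symm_apply_apply]
  have hAs : Aᵀ = A := by
    have := hA
    rw [Matrix.IsHermitian, Matrix.conjTranspose] at this
    conv_rhs => rw [← this]
    ext i j
    simp
  set vec : Fin (Fintype.card V) → V → ℝ := fun k => ⇑(hA.eigenvectorBasis (e k)) with hvec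
  have hmul : ∀ k, A *ᵥ vec k = hA.eigenvalues₀ k • vec k := by
    intro k
    rw [← hev k]
    exact hA.mulVec_eigenvectorBasis (e k)
  have hinner : ∀ k l, vec k ⬝ᵥ vec l = if k = l then 1 else 0 := by
    intro k l
    have h1 := hA.eigenvectorBasis.orthonormal
    rw [orthonormal_iff_ite] at h1
    have h2 := h1 (e k) (e l)
    simp only [PiLp.inner_apply, RCLike.inner_apply, conj_trivial] at h2
    rw [dotProduct]
    have h3 : (e k = e l) ↔ (k = l) := e.apply_eq_iff_eq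
    simp only [h3] at h2
    rw [← h2]
    apply Finset.sum_congr rfl
    intro i _
    rw [hvec]
    ring
  have horth : ∀ k, (hA.eigenvalues₀ k - d) * ∑ v, vec k v = 0 := by
    intro k
    have h1 : (fun _ => (1 : ℝ)) ⬝ᵥ (A *ᵥ vec k) = (A *ᵥ (fun _ => (1 : ℝ))) ⬝ᵥ vec k := by
      rw [Matrix.dotProduct_mulVec, ← Matrix.mulVec_transpose, hAs]
    rw [hmul, hd, dotProduct_smul, smul_dotProduct] at h1
    have h2 : (fun _ => (1 : ℝ)) ⬝ᵥ vec k = ∑ v, vec k v := by
      simp [dotProduct]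
    rw [h2] at h1
    simp only [smul_eq_mul] at h1
    linarith
  have hne : ∀ k, vec k ≠ 0 := by
    intro k h
    have := hinner k k
    rw [h] at this
    simp at this
  have h0lt : 0 < Fintype.card V := lt_of_le_of_lt (Nat.zero_le _) j.2
  set z : Fin (Fintype.card V) := ⟨0, h0lt⟩ with hz
  have hzj : z ≠ j := by
    intro h
    apply hj
    rw [← h]
  by_cases hs : ∑ v, vec j v = 0
  · exact ⟨hA.eigenvalues₀ j, vec j, hne j, hs, hmul j, le_refl _⟩
  have hlj : hA.eigenvalues₀ j = d := by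
    rcases mul_eq_zero.mp (horth j) with h | h
    · linarith
    · exact absurd h hs
  have hge : hA.eigenvalues₀ j ≤ hA.eigenvalues₀ z := by
    apply hA.eigenvalues₀_antitone
    exact Fin.mk_le_of_le_val (Nat.zero_le _)
  by_cases hs0 : ∑ v, vec z v = 0
  · refine ⟨hA.eigenvalues₀ z, vec z, hne z, hs0, hmul z, ?_⟩
    rw [abs_of_nonneg (by rw [hlj]; exact hd0), abs_of_nonneg (by linarith)]
    exact hge
  have hlz : hA.eigenvalues₀ z = d := by
    rcases mul_eq_zero.mp (horth z) with h | h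
    · linarith
    · exact absurd h hs0
  refine ⟨d, (∑ v, vec z v) • vec j - (∑ v, vec j v) • vec z, ?_, ?_, ?_, ?_⟩
  · intro h
    have h1 : (((∑ v, vec z v) • vec j - (∑ v, vec j v) • vec z) : V → ℝ) ⬝ᵥ vec j = 0 := by
      rw [h]; simp
    rw [sub_dotProduct, smul_dotProduct, smul_dotProduct, hinner, hinner, if_pos rfl,
      if_neg hzj] at h1
    simp only [smul_eq_mul, mul_one, mul_zero, sub_zero] at h1
    exact hs0 h1
  · simp only [Pi.sub_apply, Pi.smul_apply, smul_eq_mul, Finset.sum_sub_distrib]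
    rw [← Finset.mul_sum, ← Finset.mul_sum]
    ring
  · rw [Matrix.mulVec_sub, Matrix.mulVec_smul, Matrix.mulVec_smul, hmul, hmul, hlj, hlz]
    ext v
    simp only [Pi.sub_apply, Pi.smul_apply, smul_eq_mul]
    ring
  · rw [hlj]

open Classical in
theorem xi_le {G : SimpleGraph V} (hn : 2 ≤ Fintype.card V) {d β : ℝ} (hd0 : 0 ≤ d)
    (hd : G.adjMatrix ℝ *ᵥ (fun _ => 1) = d • (fun _ => (1 : ℝ)))
    (hβ : ∀ (ξ : ℝ) (f : V → ℝ), f ≠ 0 → ∑ v, f v = 0 → G.adjMatrix ℝ *ᵥ f = ξ • f → |ξ| ≤ β) :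
    xi G ≤ β := by
  unfold xi
  have : Nonempty {j : Fin (Fintype.card V) // (j : ℕ) ≠ 0} :=
    ⟨⟨⟨1, by omega⟩, by simp⟩⟩
  apply ciSup_le
  rintro ⟨j, hj⟩
  obtain ⟨ξ, f, h1, h2, h3, h4⟩ := eigenvalues₀_pair (G.isHermitian_adjMatrix (R := ℝ)) hd0 hd j hj
  exact h4.trans (hβ ξ f h1 h2 h3)

end Pool.Agent.Helper26.CC
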