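import Pool.Agent.Helper26.CC.Cut
import Pool.Agent.Helper26.CC.Xi

/-!
The general lower bound for spectral gaps in terms of degrees.
-/

set_option linter.unusedSectionVars false
set_option linter.unusedVariables false

namespace Pool.Agent.Helper26.CC

open Finset Matrix

variable {V : Type*} [Fintype V] [DecidableEq V] {r : ℕ}
variable {c : V → V → Fin r} {a : Fin r} {ξ : ℝ} {E : Matrix V V ℝ}

open Classical in
theorem adjMatrix_eq (c : V → V → Fin r) (a : Fin r) : (sym c a).adjMatrix ℝ = adj c a := by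
  ext u v
  rw [SimpleGraph.adjMatrix_apply]
  unfold adj sym
  simp only [Matrix.of_apply, SimpleGraph.fromRel_adj]

theorem exists_adj (hc : IsPCC c) (hn : 3 ≤ Fintype.card V) (ha : IsEdgeColor c a) (w : V) :
    ∃ w', (sym c a).Adj w w' := by
  by_contra hcon
  push Not at hcon
  have h1 : ({w} : Finset V) = univ := by
    apply closed_eq_univ (hc.conn a ha) (Finset.mem_singleton_self w)
    intro x hx y hxy
    rw [Finset.mem_singleton] at hx
    subst hx
    exact absurd hxy (hcon y)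
  have h2 : Fintype.card V = 1 := by
    rw [← Finset.card_univ, ← h1, Finset.card_singleton]
  omega

theorem deg_pos (hc : IsPCC c) (hn : 3 ≤ Fintype.card V) (ha : IsEdgeColor c a) (w : V) :
    0 < deg c a w := by
  obtain ⟨w', h⟩ := exists_adj hc hn ha w
  unfold deg
  apply Finset.card_pos.mpr
  refine ⟨w', ?_⟩
  simp only [Finset.mem_filter, Finset.mem_univ, true_and]
  simpa [sym, SimpleGraph.fromRel_adj] using h

theorem val_pos (hc : IsPCC c) (hn : 3 ≤ Fintype.card V) (ha : IsEdgeColor c a) (w : V) :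
    0 < val c a w := by
  obtain ⟨w', h⟩ := exists_adj hc hn ha w
  have h' : w ≠ w' ∧ (c w w' = a ∨ c w' w = a) := by
    simpa [sym, SimpleGraph.fromRel_adj] using h
  rcases h'.2 with h1 | h1
  · unfold val
    exact Finset.card_pos.mpr ⟨w', by simp [h1]⟩
  · unfold val
    rw [outdeg_const hc a w w']
    exact Finset.card_pos.mpr ⟨w, by simp [h1]⟩

theorem rank_bound (hc : IsPCC c) (hn : 3 ≤ Fintype.card V) (ha : IsEdgeColor c a)
    (hE : Mode c a ξ E) {δ : ℝ} (hδ0 : 0 ≤ δ)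
    (hδ : ∀ u, (1 - δ) * (deg c a u : ℝ) ≤ |ξ|) (u : V) {K : ℕ} (hK : (K : ℝ) ^ 2 * δ ≤ 1 / 8) :
    (K : ℝ) * ((deg c a u : ℝ) + 1) * E u u ≤ 192 / 49 := by
  classical
  have hpos := hE.pos hc u
  have hne := ball_ne_univ hc hn hE hδ0 hδ u hK
  have hG : (sym c a).Connected := hc.conn a ha
  have hd : ∀ v, deg c a u ≤ (univ.filter fun w => (sym c a).Adj v w).card := by
    intro v
    rw [deg_const hc ha u v]
    unfold deg
    apply le_of_eq
    congr 1
    ext w
    simp [sym, SimpleGraph.fromRel_adj]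
  have h1 := ball_growth hG hd hne K le_rfl
  have h2 : ∀ v ∈ ball (sym c a) u K, 49 / 64 * (E u u) ^ 2 ≤ E u v ^ 2 := by
    intro v hv
    obtain ⟨s, hs, _, h⟩ := near' hc hE hδ0 hδ u hK hv
    have h3 : (7 / 8 * E u u) ^ 2 ≤ (s * E u v) ^ 2 := pow_le_pow_left₀ (by positivity) h 2
    have h4 : s ^ 2 = 1 := by rcases hs with h | h <;> rw [h] <;> norm_num
    rw [mul_pow, mul_pow, h4] at h3
    linarith
  have h3 : ((ball (sym c a) u K).card : ℝ) * (49 / 64 * (E u u) ^ 2) ≤ E u u := by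
    rw [← hE.sq u]
    calc ((ball (sym c a) u K).card : ℝ) * (49 / 64 * (∑ v, E u v ^ 2) ^ 2)
        = ∑ v ∈ ball (sym c a) u K, 49 / 64 * (E u u) ^ 2 := by
          rw [hE.sq u, Finset.sum_const, nsmul_eq_mul]
      _ ≤ ∑ v ∈ ball (sym c a) u K, E u v ^ 2 := Finset.sum_le_sum h2
      _ ≤ ∑ v, E u v ^ 2 := Finset.sum_le_sum_of_subset_of_nonneg (Finset.subset_univ _)
          (fun _ _ _ => by positivity)
  have h4 : ((ball (sym c a) u K).card : ℝ) * (49 / 64 * E u u) ≤ 1 := by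
    have : (((ball (sym c a) u K).card : ℝ) * (49 / 64 * E u u)) * E u u ≤ 1 * E u u := by
      calc _ = ((ball (sym c a) u K).card : ℝ) * (49 / 64 * (E u u) ^ 2) := by ring
        _ ≤ E u u := h3
        _ = _ := (one_mul _).symm
    exact le_of_mul_le_mul_right this hpos
  have h5 : (K : ℝ) * ((deg c a u : ℝ) + 1) ≤ 3 * ((ball (sym c a) u K).card : ℝ) := by
    exact_mod_cast h1
  calc (K : ℝ) * ((deg c a u : ℝ) + 1) * E u u
      ≤ (3 * ((ball (sym c a) u K).card : ℝ)) * E u u := mul_le_mul_of_nonneg_right h5 hpos.le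
    _ = 3 * (64 / 49) * (((ball (sym c a) u K).card : ℝ) * (49 / 64 * E u u)) := by ring
    _ ≤ 3 * (64 / 49) * 1 := by
        apply mul_le_mul_of_nonneg_left h4
        norm_num
    _ = 192 / 49 := by norm_num

/-- The gap bound, `K`-form. -/
theorem gap_K (hc : IsPCC c) (hn : 3 ≤ Fintype.card V) (ha : IsEdgeColor c a) {t : Fin r}
    (ht : IsEdgeColor c t) {w w' : V} (hadj : (sym c a).Adj w w') {K : ℕ} (hK1 : 1 ≤ K)
    (hK : (6 : ℝ) * both c t w w' ≤ K * ((deg c a w : ℝ) + 1) * val c t w)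
    {f : V → ℝ} (hf0 : f ≠ 0) (hfs : ∑ v, f v = 0) (hf : adj c a *ᵥ f = ξ • f) :
    |ξ| ≤ (1 - 1 / (8 * (K : ℝ) ^ 2)) * deg c a w := by
  by_contra hcon
  push Not at hcon
  have hKr : (1 : ℝ) ≤ K := by exact_mod_cast hK1
  have hK2 : (1 : ℝ) ≤ (K : ℝ) ^ 2 := one_le_pow₀ hKr
  set δ : ℝ := 1 / (8 * (K : ℝ) ^ 2) with hδdef
  have hδ0 : 0 < δ := by rw [hδdef]; positivity
  have hδ8 : δ ≤ 1 / 8 := by
    rw [hδdef]
    apply one_div_le_one_div_of_le (by norm_num)
    linarith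
  have hd : (0 : ℝ) < deg c a w := by exact_mod_cast deg_pos hc hn ha w
  have hξ : ξ ≠ 0 := by
    intro h
    rw [h, abs_zero] at hcon
    have : 0 < (1 - δ) * (deg c a w : ℝ) := mul_pos (by linarith) hd
    linarith
  obtain ⟨E, hE⟩ := exists_mode hc ha hξ hf0 hfs hf
  have hδ' : ∀ u, (1 - δ) * (deg c a u : ℝ) ≤ |ξ| := by
    intro u
    rw [deg_const hc ha u w]
    exact hcon.le
  have hKδ : (K : ℝ) ^ 2 * δ ≤ 1 / 8 := by
    rw [hδdef]
    have : (K : ℝ) ^ 2 ≠ 0 := by positivity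
    apply le_of_eq
    field_simp
  have h1 := rank_bound hc hn ha hE hδ0.le hδ' w hKδ
  have h2 := cut_bound hc hE ht hδ' hadj
  have hpos := hE.pos hc w
  have hval : (1 : ℝ) ≤ val c t w := by exact_mod_cast val_pos hc hn ht w
  have h3 : 3 / 4 * (val c t w : ℝ) ≤ both c t w w' * E w w := by
    refine le_trans ?_ h2
    apply mul_le_mul_of_nonneg_right _ (by linarith)
    linarith
  set b : ℝ := (both c t w w' : ℝ) with hb
  have hb0 : 0 ≤ b := by rw [hb]; positivity
  -- b > 0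
  have hbpos : 0 < b := by
    by_contra h
    have : b = 0 := le_antisymm (not_lt.mp h) hb0
    rw [this] at h3
    linarith
  set y : ℝ := ((K : ℝ) * ((deg c a w : ℝ) + 1)) with hy
  have hy0 : 0 < y := by rw [hy]; positivity
  -- y * E ≤ 192/49, (3/4) v ≤ b E, 6 b ≤ y v
  have h4 : y * (3 / 4 * (val c t w : ℝ)) ≤ b * (192 / 49) := by
    calc y * (3 / 4 * (val c t w : ℝ)) ≤ y * (b * E w w) := mul_le_mul_of_nonneg_left h3 hy0.le
      _ = b * (y * E w w) := by ring
      _ ≤ b * (192 / 49) := mul_le_mul_of_nonneg_left h1 hb0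
  have h5 : 3 / 4 * (6 * b) ≤ b * (192 / 49) := by
    calc 3 / 4 * (6 * b) ≤ 3 / 4 * (y * val c t w) := by
          apply mul_le_mul_of_nonneg_left hK
          norm_num
      _ = y * (3 / 4 * (val c t w : ℝ)) := by ring
      _ ≤ _ := h4
  linarith

/-- The gap bound, closed form. -/
theorem gap_closed (hc : IsPCC c) (hn : 3 ≤ Fintype.card V) (ha : IsEdgeColor c a) {t : Fin r}
    (ht : IsEdgeColor c t) {w w' : V} (hww : c w w' = a) :
    xi (sym c a) ≤ deg c a w - (deg c a w : ℝ) / 8 *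
      ((deg c a w * val c t w : ℝ) / (6 * both c t w w' + deg c a w * val c t w)) ^ 2 := by
  classical
  have hne : w ≠ w' := by
    rintro rfl
    exact ha w hww
  have hadj : (sym c a).Adj w w' := by
    simp [sym, SimpleGraph.fromRel_adj, hne, hww]
  set d : ℝ := (deg c a w : ℝ) with hd
  set v : ℝ := (val c t w : ℝ) with hv
  set b : ℝ := (both c t w w' : ℝ) with hb
  have hdpos : 0 < d := by rw [hd]; exact_mod_cast deg_pos hc hn ha w
  have hvpos : 0 < v := by rw [hv]; exact_mod_cast val_pos hc hn ht w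
  have hb0 : 0 ≤ b := by rw [hb]; positivity
  set K : ℕ := ⌊6 * b / ((d + 1) * v)⌋₊ + 1 with hKdef
  have hy : 0 < (d + 1) * v := by positivity
  have hK1 : 1 ≤ K := by omega
  have hKr : (1 : ℝ) ≤ K := by exact_mod_cast hK1
  have hKlow : 6 * b / ((d + 1) * v) ≤ K := by
    rw [hKdef]
    push_cast
    exact (Nat.lt_floor_add_one _).le
  have hKup : (K : ℝ) ≤ 6 * b / ((d + 1) * v) + 1 := by
    rw [hKdef]
    push_cast
    have := Nat.floor_le (show 0 ≤ 6 * b / ((d + 1) * v) by positivity)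
    linarith
  have hK6 : 6 * b ≤ K * (d + 1) * v := by
    rw [div_le_iff₀ hy] at hKlow
    linarith
  have hA1 : (sym c a).adjMatrix ℝ *ᵥ (fun _ => 1) = d • (fun _ => (1 : ℝ)) := by
    rw [adjMatrix_eq]
    ext u
    simp only [Matrix.mulVec, dotProduct, mul_one, Pi.smul_apply, smul_eq_mul]
    rw [adj_sum, hd, deg_const hc ha u w]
  have h1 : xi (sym c a) ≤ (1 - 1 / (8 * (K : ℝ) ^ 2)) * d := by
    apply xi_le (by omega) hdpos.le hA1
    intro ξ f hf0 hfs hf
    rw [adjMatrix_eq] at hf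
    exact gap_K hc hn ha ht hadj hK1 hK6 hf0 hfs hf
  refine h1.trans ?_
  have h2 : (d * v) / (6 * b + d * v) ≤ 1 / (K : ℝ) := by
    rw [div_le_div_iff₀ (by positivity) (by positivity)]
    have h3 : (K : ℝ) * ((d + 1) * v) ≤ 6 * b + (d + 1) * v := by
      have h6 := mul_le_mul_of_nonneg_right hKup hy.le
      have h7 : (6 * b / ((d + 1) * v) + 1) * ((d + 1) * v) = 6 * b + (d + 1) * v := by
        field_simp
      linarith
    nlinarith
  have h3 : ((d * v) / (6 * b + d * v)) ^ 2 ≤ (1 / (K : ℝ)) ^ 2 :=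
    pow_le_pow_left₀ (by positivity) h2 2
  have h4 : (1 - 1 / (8 * (K : ℝ) ^ 2)) * d = d - d / 8 * (1 / (K : ℝ)) ^ 2 := by
    field_simp
  rw [h4]
  have h5 : d / 8 * ((d * v) / (6 * b + d * v)) ^ 2 ≤ d / 8 * (1 / (K : ℝ)) ^ 2 :=
    mul_le_mul_of_nonneg_left h3 (by positivity)
  linarith

end Pool.Agent.Helper26.CC
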