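import Pool.Agent.Helper26.CC.General

/-!
Averaging: if at least half of all pairs lie in constituents of degree at least
`C * D_min ^ 2 / n`, some constituent has a gap.
-/

set_option linter.unusedSectionVars false
set_option linter.unusedVariables false

namespace Pool.Agent.Helper26.CC

open Finset Matrix

variable {V : Type*} [Fintype V] [DecidableEq V] {r : ℕ}
variable {c : V → V → Fin r} {a : Fin r} {ξ : ℝ} {E : Matrix V V ℝ}

theorem CM.sum {ι : Type*} (s : Finset ι) {M : ι → Matrix V V ℝ} (h : ∀ i ∈ s, CM c (M i)) :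
    CM c (∑ i ∈ s, M i) := by
  classical
  induction s using Finset.induction_on with
  | empty =>
    rw [Finset.sum_empty]
    exact ⟨fun _ => 0, fun u v => rfl⟩
  | insert i s hi ih =>
    rw [Finset.sum_insert hi]
    exact (h i (Finset.mem_insert_self _ _)).add
      (ih fun j hj => h j (Finset.mem_insert_of_mem hj))

theorem dnum_eq (c : V → V → Fin r) (u v : V) :
    (dnum c u v : ℝ) = Fintype.card V - (∑ a, (ind c a)ᵀ * ind c a) u v := by
  have h1 : (∑ a, (ind c a)ᵀ * ind c a) u v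
      = ((univ.filter fun w => ¬ c w u ≠ c w v).card : ℝ) := by
    rw [Matrix.sum_apply]
    simp_rw [Matrix.mul_apply, Matrix.transpose_apply]
    rw [Finset.sum_comm, Finset.card_filter, Nat.cast_sum]
    apply Finset.sum_congr rfl
    intro w _
    unfold ind
    simp only [Matrix.of_apply]
    rw [Finset.sum_eq_single (c w u)]
    · by_cases h : c w u = c w v
      · simp [h]
      · have h' : ¬ c w v = c w u := fun h'' => h h''.symm
        simp [h, h']
    · intro b _ hb
      rw [if_neg (Ne.symm hb), zero_mul]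
    · simp
  have h2 := Finset.card_filter_add_card_filter_not (s := (univ : Finset V))
    (fun w => c w u ≠ c w v)
  have h3 : ((univ.filter fun w => c w u ≠ c w v).card : ℝ)
      + ((univ.filter fun w => ¬ c w u ≠ c w v).card : ℝ) = Fintype.card V := by
    rw [← Finset.card_univ]
    exact_mod_cast h2
  rw [h1]
  unfold dnum
  linarith

theorem dnum_const (hc : IsPCC c) {u v u' v' : V} (h : c u v = c u' v') :
    dnum c u v = dnum c u' v' := by
  have h1 : CM c (∑ a, (ind c a)ᵀ * ind c a) :=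
    CM.sum _ fun a _ => ((ind_CM c a).transpose hc.coherent).mul hc.coherent (ind_CM c a)
  have h2 : (dnum c u v : ℝ) = dnum c u' v' := by
    rw [dnum_eq, dnum_eq, h1.eq h]
  exact_mod_cast h2

theorem card_T (hc : IsPCC c) (t : Fin r) (w : V) :
    ((univ.filter (fun p : V × V => c p.1 p.2 = t)).card : ℝ)
        = (Fintype.card V : ℝ) * (val c t w : ℝ) := by
  have h4 : ((univ.filter (fun p : V × V => c p.1 p.2 = t)).card : ℝ)
      = ∑ p ∈ univ.filter (fun p : V × V => c p.1 p.2 = t), (fun _ _ : V => (1 : ℝ)) p.1 p.2 := by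
    simp
  rw [h4, sum_T c t (fun _ _ => (1 : ℝ))]
  simp only [mul_one]
  have h5 : ∀ u, ∑ v, ind c t u v = (val c t w : ℝ) := by
    intro u
    rw [ind_row, outdeg_const hc t u w]
    rfl
  simp_rw [h5]
  rw [Finset.sum_const, nsmul_eq_mul, Finset.card_univ]

theorem sum_both (hc : IsPCC c) (x y w0 : V) :
    ∑ w, ∑ w', (both c (c x y) w w' : ℝ)
      = (Fintype.card V : ℝ) * (val c (c x y) w0 : ℝ) * (dnum c x y : ℝ) ^ 2 := by
  set t := c x y with ht
  set T := univ.filter (fun p : V × V => c p.1 p.2 = t) with hT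
  have h1 : ∀ w w', (both c t w w' : ℝ) = ∑ p ∈ T,
      (if c w p.1 ≠ c w p.2 then (1 : ℝ) else 0) * (if c w' p.1 ≠ c w' p.2 then 1 else 0) := by
    intro w w'
    unfold both
    rw [Finset.card_filter, Nat.cast_sum, hT, Finset.sum_filter]
    apply Finset.sum_congr rfl
    intro p _
    by_cases h1 : c p.1 p.2 = t <;> by_cases h2 : c w p.1 ≠ c w p.2 <;>
      by_cases h3 : c w' p.1 ≠ c w' p.2 <;> simp [h1, h2, h3]
  simp_rw [h1]
  have h2 : ∑ w, ∑ w', ∑ p ∈ T,
      (if c w p.1 ≠ c w p.2 then (1 : ℝ) else 0) * (if c w' p.1 ≠ c w' p.2 then 1 else 0)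
      = ∑ p ∈ T, (dnum c p.1 p.2 : ℝ) ^ 2 := by
    have h3 : ∀ w, ∑ w', ∑ p ∈ T,
        (if c w p.1 ≠ c w p.2 then (1 : ℝ) else 0) * (if c w' p.1 ≠ c w' p.2 then 1 else 0)
        = ∑ p ∈ T, (if c w p.1 ≠ c w p.2 then (1 : ℝ) else 0) * (dnum c p.1 p.2 : ℝ) := by
      intro w
      rw [Finset.sum_comm]
      apply Finset.sum_congr rfl
      intro p _
      rw [← Finset.mul_sum]
      congr 1
      unfold dnum
      rw [Finset.card_filter, Nat.cast_sum]
      apply Finset.sum_congr rfl
      intro w' _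
      split_ifs <;> simp
    simp_rw [h3]
    rw [Finset.sum_comm]
    apply Finset.sum_congr rfl
    intro p _
    rw [← Finset.sum_mul, pow_two]
    congr 1
    unfold dnum
    rw [Finset.card_filter, Nat.cast_sum]
    apply Finset.sum_congr rfl
    intro w' _
    split_ifs <;> simp
  rw [h2]
  have h4 : ∀ p ∈ T, (dnum c p.1 p.2 : ℝ) ^ 2 = (dnum c x y : ℝ) ^ 2 := by
    intro p hp
    rw [dnum_const hc (Finset.mem_filter.mp hp).2]
  rw [Finset.sum_congr rfl h4, Finset.sum_const, nsmul_eq_mul, card_T hc t w0]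

theorem dmin_attained (hn : 3 ≤ Fintype.card V) (c : V → V → Fin r) :
    ∃ u v : V, u ≠ v ∧ dnum c u v = dmin c := by
  have hne : {m | ∃ u v : V, u ≠ v ∧ dnum c u v = m}.Nonempty := by
    obtain ⟨x, y, hxy⟩ := Fintype.one_lt_card_iff.mp (by omega : 1 < Fintype.card V)
    exact ⟨_, x, y, hxy, rfl⟩
  have := Nat.sInf_mem hne
  exact this

theorem half_cover (hc : IsPCC c) (hn : 3 ≤ Fintype.card V) {C : ℝ} (hC : 0 < C)
    (hcov : (Fintype.card V : ℝ) ^ 2 ≤ 2 * ((univ.filter fun p : V × V => p.1 ≠ p.2 ∧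
      C * (dmin c : ℝ) ^ 2 ≤ Fintype.card V * (deg c (c p.1 p.2) p.1 : ℝ)).card : ℝ)) :
    ∃ a, IsEdgeColor c a ∧ ∀ w,
      xi (sym c a) ≤ (deg c a w : ℝ) - (C / (12 + C)) ^ 2 / 8 * (deg c a w : ℝ) := by
  classical
  obtain ⟨x, y, hxy, hD⟩ := dmin_attained hn c
  set t := c x y with ht
  have htE : IsEdgeColor c t := fun z => hc.coherent.diag_ne z x y hxy
  set n : ℝ := (Fintype.card V : ℝ) with hnn
  have hnpos : 0 < n := by
    rw [hnn]
    have : 0 < Fintype.card V := by omega
    exact_mod_cast this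
  set D : ℝ := (dmin c : ℝ) with hDD
  set k : ℝ := (val c t x : ℝ) with hk
  have hkpos : 0 < k := by rw [hk]; exact_mod_cast val_pos hc hn htE x
  have hsum := sum_both hc x y x
  rw [← ht, hD] at hsum
  set S := univ.filter fun p : V × V => p.1 ≠ p.2 ∧
      C * D ^ 2 ≤ n * (deg c (c p.1 p.2) p.1 : ℝ) with hS
  -- some pair in `S` has few common cut pairs
  obtain ⟨p, hpS, hpb⟩ : ∃ p ∈ S, n * (both c t p.1 p.2 : ℝ) ≤ 2 * k * D ^ 2 := by
    by_contra hcon
    push Not at hcon
    have hSne : S.Nonempty := by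
      rw [Finset.nonempty_iff_ne_empty]
      intro h
      rw [h] at hcov
      simp at hcov
      nlinarith
    have h1 : (S.card : ℝ) * (2 * k * D ^ 2) < ∑ p ∈ S, n * (both c t p.1 p.2 : ℝ) := by
      calc (S.card : ℝ) * (2 * k * D ^ 2) = ∑ p ∈ S, 2 * k * D ^ 2 := by
            rw [Finset.sum_const, nsmul_eq_mul]
        _ < _ := Finset.sum_lt_sum_of_nonempty hSne hcon
    have h2 : ∑ p ∈ S, n * (both c t p.1 p.2 : ℝ) ≤ n * (n * k * D ^ 2) := by
      rw [← Finset.mul_sum]
      apply mul_le_mul_of_nonneg_left _ hnpos.le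
      calc ∑ p ∈ S, (both c t p.1 p.2 : ℝ) ≤ ∑ p : V × V, (both c t p.1 p.2 : ℝ) :=
            Finset.sum_le_sum_of_subset_of_nonneg (Finset.subset_univ _)
              (fun _ _ _ => by positivity)
        _ = n * k * D ^ 2 := by
            rw [Fintype.sum_prod_type]
            exact hsum
    have h3 : n ^ 2 / 2 * (2 * k * D ^ 2) ≤ (S.card : ℝ) * (2 * k * D ^ 2) := by
      apply mul_le_mul_of_nonneg_right _ (by positivity)
      linarith
    nlinarith
  obtain ⟨hp1, hp2⟩ := (Finset.mem_filter.mp hpS).2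
  set b : ℝ := (both c t p.1 p.2 : ℝ) with hb
  set a := c p.1 p.2 with ha
  have haE : IsEdgeColor c a := fun z => hc.coherent.diag_ne z p.1 p.2 hp1
  have hgap := gap_closed hc hn haE htE (w := p.1) (w' := p.2) rfl
  refine ⟨a, haE, fun w => ?_⟩
  rw [deg_const hc haE w p.1]
  refine hgap.trans ?_
  set d : ℝ := (deg c a p.1 : ℝ) with hd
  have hdpos : 0 < d := by rw [hd]; exact_mod_cast deg_pos hc hn haE p.1
  have hkk : (val c t p.1 : ℝ) = k := by
    rw [hk]
    unfold val
    rw [outdeg_const hc t p.1 x]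
  rw [← hb, hkk]
  have hb0 : 0 ≤ b := by rw [hb]; positivity
  have h4 : C / (12 + C) ≤ (d * k) / (6 * b + d * k) := by
    rw [div_le_div_iff₀ (by positivity) (by positivity)]
    -- C * (6 b + d k) ≤ d k * (12 + C)
    have h5 : C * (6 * b) ≤ 12 * (d * k) := by
      have h6 : n * (C * (6 * b)) ≤ n * (12 * (d * k)) := by
        calc n * (C * (6 * b)) = 6 * C * (n * b) := by ring
          _ ≤ 6 * C * (2 * k * D ^ 2) := mul_le_mul_of_nonneg_left hpb (by positivity)
          _ = 12 * k * (C * D ^ 2) := by ring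
          _ ≤ 12 * k * (n * d) := mul_le_mul_of_nonneg_left hp2 (by positivity)
          _ = n * (12 * (d * k)) := by ring
      exact le_of_mul_le_mul_left h6 hnpos
    linarith
  have h7 : (C / (12 + C)) ^ 2 ≤ ((d * k) / (6 * b + d * k)) ^ 2 :=
    pow_le_pow_left₀ (by positivity) h4 2
  nlinarith [mul_le_mul_of_nonneg_left h7 (show 0 ≤ d / 8 by positivity)]

end Pool.Agent.Helper26.CC
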