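import Pool.Agent.Helper26.CC.Alg

/-!
Spectral projections of the symmetrized constituents of a primitive coherent configuration.
-/

set_option linter.unusedSectionVars false

namespace Pool.Agent.Helper26.CC

open Finset Matrix

variable {V : Type*} [Fintype V] [DecidableEq V] {r : ℕ}

/-- Adjacency matrix of the symmetrized constituent. -/
def adj (c : V → V → Fin r) (a : Fin r) : Matrix V V ℝ :=
  Matrix.of fun u v => if u ≠ v ∧ (c u v = a ∨ c v u = a) then 1 else 0

theorem adj_symm (c : V → V → Fin r) (a : Fin r) (u v : V) : adj c a u v = adj c a v u := by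
  unfold adj
  simp only [Matrix.of_apply]
  congr 1
  rw [ne_comm, or_comm]

theorem adj_transpose (c : V → V → Fin r) (a : Fin r) : (adj c a)ᵀ = adj c a := by
  ext u v
  rw [Matrix.transpose_apply, adj_symm]

theorem adj_sum (c : V → V → Fin r) (a : Fin r) (u : V) : ∑ v, adj c a u v = deg c a u := by
  unfold adj deg
  simp only [Matrix.of_apply]
  rw [Finset.card_filter, Nat.cast_sum]
  apply Finset.sum_congr rfl
  intro v _
  split_ifs <;> simp

theorem adj_CM {c : V → V → Fin r} (hc : IsCoherent c) {a : Fin r} (ha : IsEdgeColor c a) :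
    CM c (adj c a) := by
  classical
  choose s hs using hc.inv
  refine ⟨fun i => if i = a ∨ s i = a then 1 else 0, fun u v => ?_⟩
  have h1 : c v u = s (c u v) := hs _ u v rfl
  unfold adj
  simp only [Matrix.of_apply]
  rw [← h1]
  by_cases h : u = v
  · subst h
    have := ha u
    simp [this]
  · simp [h]

/-- out-degrees and in-degrees are constant -/
theorem outdeg_const {c : V → V → Fin r} (hc : IsPCC c) (t : Fin r) (u v : V) :
    (univ.filter fun x => c u x = t).card = (univ.filter fun x => c v x = t).card := by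
  classical
  obtain ⟨s, hs⟩ := hc.coherent.inv t
  obtain ⟨p, hp⟩ := hc.coherent.coh t s (c u u)
  have h1 : ∀ w : V, c w w = c u u → (univ.filter fun x => c w x = t).card = p := by
    intro w hw
    rw [← hp w w hw]
    congr 1
    ext x
    simp only [Finset.mem_filter, Finset.mem_univ, true_and]
    exact ⟨fun h => ⟨h, hs _ _ h⟩, fun h => h.1⟩
  rw [h1 u rfl, h1 v (hc.homog v u)]

theorem indeg_const {c : V → V → Fin r} (hc : IsPCC c) (t : Fin r) (u v : V) :
    (univ.filter fun x => c x u = t).card = (univ.filter fun x => c x v = t).card := by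
  classical
  obtain ⟨s, hs⟩ := hc.coherent.inv t
  obtain ⟨p, hp⟩ := hc.coherent.coh s t (c u u)
  have h1 : ∀ w : V, c w w = c u u → (univ.filter fun x => c x w = t).card = p := by
    intro w hw
    rw [← hp w w hw]
    congr 1
    ext x
    simp only [Finset.mem_filter, Finset.mem_univ, true_and]
    exact ⟨fun h => ⟨hs _ _ h, h⟩, fun h => h.2⟩
  rw [h1 u rfl, h1 v (hc.homog v u)]

theorem deg_const {c : V → V → Fin r} (hc : IsPCC c) {a : Fin r} (ha : IsEdgeColor c a)
    (u v : V) : deg c a u = deg c a v := by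
  have h1 : ∀ w : V, (deg c a w : ℝ) = ∑ x, adj c a w x := fun w => (adj_sum c a w).symm
  -- `∑ x, adj w x = (adj * adjᵀ) w w`
  have h2 : ∀ w : V, ∑ x, adj c a w x = (adj c a * adj c a) w w := by
    intro w
    rw [Matrix.mul_apply]
    apply Finset.sum_congr rfl
    intro x _
    rw [adj_symm c a x w]
    unfold adj
    simp only [Matrix.of_apply]
    split_ifs <;> simp
  have h3 : CM c (adj c a * adj c a) :=
    (adj_CM hc.coherent ha).mul hc.coherent (adj_CM hc.coherent ha)
  have h4 : (deg c a u : ℝ) = deg c a v := by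
    rw [h1, h1, h2, h2, h3.eq (hc.homog u v)]
  exact_mod_cast h4

/-- `E` is a nonzero projection onto `ξ`-eigenvectors (of sum zero) of the symmetrized
constituent of colour `a`, constant on colours. -/
structure Mode (c : V → V → Fin r) (a : Fin r) (ξ : ℝ) (E : Matrix V V ℝ) : Prop where
  cm : CM c E
  symm : ∀ u v, E u v = E v u
  idem : ∀ u v, ∑ w, E u w * E w v = E u v
  eig : ∀ u v, ∑ w, adj c a u w * E w v = ξ * E u v
  row : ∀ u, ∑ v, E u v = 0
  ne : ∃ u v, E u v ≠ 0

theorem exists_mode {c : V → V → Fin r} (hc : IsPCC c) {a : Fin r} (ha : IsEdgeColor c a)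
    {ξ : ℝ} (hξ : ξ ≠ 0) {f : V → ℝ} (hf0 : f ≠ 0) (hfs : ∑ v, f v = 0)
    (hBf : adj c a *ᵥ f = ξ • f) : ∃ E, Mode c a ξ E := by
  classical
  obtain ⟨v0, hv0⟩ : ∃ v, f v ≠ 0 := by
    by_contra h
    push Not at h
    exact hf0 (funext h)
  have hd : adj c a *ᵥ (fun _ => 1) = (deg c a v0 : ℝ) • (fun _ => (1 : ℝ)) := by
    ext u
    simp only [Matrix.mulVec, dotProduct, mul_one, Pi.smul_apply, smul_eq_mul]
    rw [adj_sum, deg_const hc ha u v0]
  obtain ⟨E, h1, h2, h3, h4, h5, h6⟩ := exists_proj hc.coherent (adj_transpose c a)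
    (adj_CM hc.coherent ha) hd hξ hf0 hfs hBf
  refine ⟨E, h1, ?_, ?_, ?_, h5, ?_⟩
  · intro u v
    conv_lhs => rw [← h2]
    rfl
  · intro u v
    have := congrFun (congrFun h3 u) v
    rwa [Matrix.mul_apply] at this
  · intro u v
    have := congrFun (congrFun h4 u) v
    rwa [Matrix.mul_apply] at this
  · by_contra h
    push Not at h
    have : f = 0 := by
      rw [← h6]
      ext u
      simp [Matrix.mulVec, dotProduct, h]
    exact hf0 this

section

variable {c : V → V → Fin r} {a : Fin r} {ξ : ℝ} {E : Matrix V V ℝ}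

theorem Mode.diag (hc : IsPCC c) (hE : Mode c a ξ E) (u v : V) : E u u = E v v :=
  hE.cm.eq (hc.homog u v)

theorem Mode.sq (hE : Mode c a ξ E) (u : V) : ∑ v, E u v ^ 2 = E u u := by
  rw [← hE.idem u u]
  apply Finset.sum_congr rfl
  intro v _
  rw [hE.symm v u, pow_two]

theorem Mode.pos (hc : IsPCC c) (hE : Mode c a ξ E) (u : V) : 0 < E u u := by
  obtain ⟨x, y, hxy⟩ := hE.ne
  rw [hE.diag hc u x, ← hE.sq x]
  apply Finset.sum_pos'
  · intro i _
    positivity
  · exact ⟨y, Finset.mem_univ _, by positivity⟩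

theorem Mode.inner_eq (hE : Mode c a ξ E) (u v : V) : ∑ w, E u w * E v w = E u v := by
  rw [← hE.idem u v]
  apply Finset.sum_congr rfl
  intro w _
  rw [hE.symm v w]

/-- Cauchy-Schwarz. -/
theorem Mode.cs (hE : Mode c a ξ E) (w u v : V) :
    (E w u - E w v) ^ 2 ≤ E w w * (E u u + E v v - 2 * E u v) := by
  have h1 : E w u - E w v = ∑ x, E w x * (E u x - E v x) := by
    simp_rw [mul_sub, Finset.sum_sub_distrib]
    rw [hE.inner_eq, hE.inner_eq]
  have h2 : ∑ x, (E u x - E v x) ^ 2 = E u u + E v v - 2 * E u v := by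
    have : ∀ x, (E u x - E v x) ^ 2 = E u x * E u x + E v x * E v x - 2 * (E u x * E v x) := by
      intro x; ring
    simp_rw [this, Finset.sum_sub_distrib, Finset.sum_add_distrib, ← Finset.mul_sum]
    rw [hE.inner_eq, hE.inner_eq, hE.inner_eq]
  rw [h1, ← hE.sq w, ← h2]
  exact Finset.sum_mul_sq_le_sq_mul_sq _ _ _

/-- The `ξ/d` rule. -/
theorem key {M : Matrix V V ℝ} (hM : CM c M)
    (hMs : ∀ u v, M u v = M v u) (hMe : ∀ u v, ∑ w, adj c a u w * M w v = ξ * M u v)
    {u v : V} (huv : (sym c a).Adj u v) : (deg c a u : ℝ) * M u v = ξ * M u u := by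
  have huv' : u ≠ v ∧ (c u v = a ∨ c v u = a) := by
    simpa [sym, SimpleGraph.fromRel_adj] using huv
  have hconst : ∀ x y, x ≠ y ∧ (c x y = a ∨ c y x = a) → M x y = M u v := by
    intro x y hxy
    rcases hxy.2 with h | h <;> rcases huv'.2 with h' | h'
    · exact hM.eq (h.trans h'.symm)
    · rw [hMs u v]; exact hM.eq (h.trans h'.symm)
    · rw [hMs x y]; exact hM.eq (h.trans h'.symm)
    · rw [hMs x y, hMs u v]; exact hM.eq (h.trans h'.symm)
  rw [← hMe u u, ← adj_sum c a u, Finset.sum_mul]
  apply Finset.sum_congr rfl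
  intro w _
  by_cases h : u ≠ w ∧ (c u w = a ∨ c w u = a)
  · rw [hMs w u, hconst u w h]
  · have : adj c a u w = 0 := by
      unfold adj
      simp only [Matrix.of_apply, if_neg h]
    rw [this]
    ring

theorem Mode.key (hE : Mode c a ξ E) {u v : V}
    (huv : (sym c a).Adj u v) : (deg c a u : ℝ) * E u v = ξ * E u u :=
  CC.key hE.cm hE.symm hE.eig huv

end

end Pool.Agent.Helper26.CC
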