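import Pool.Agent.Helper26.CC.Half

/-!
Schur's theorem on multipliers for translation schemes, and its effect on distinguishing numbers.
-/

set_option linter.unusedSectionVars false
set_option linter.unusedVariables false

namespace Pool.Agent.Helper26.CC

open Finset Matrix

variable {V : Type*} [Fintype V] [DecidableEq V] [AddCommGroup V] {r : ℕ}
variable {c : V → V → Fin r}

/-- translation invariance -/
def Trans (c : V → V → Fin r) : Prop := ∀ h u v : V, c (u + h) (v + h) = c u v

theorem Trans.eq (hT : Trans c) (u v : V) : c u v = c 0 (v - u) := by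
  have := hT u 0 (v - u)
  rw [zero_add, sub_add_cancel] at this
  exact this

/-- Elements of the group algebra that are constant on colour classes. -/
def CF {p : ℕ} (c : V → V → Fin r) (x : AddMonoidAlgebra (ZMod p) V) : Prop :=
  ∃ m : Fin r → ZMod p, ∀ g, x.coeff g = m (c 0 g)

theorem CF.mul {p : ℕ} (hc : IsCoherent c) (hT : Trans c) {x y : AddMonoidAlgebra (ZMod p) V}
    (hx : CF c x) (hy : CF c y) : CF c (x * y) := by
  classical
  obtain ⟨m, hm⟩ := hx
  obtain ⟨n, hn⟩ := hy
  choose q hq using hc.coh
  refine ⟨fun t => ∑ i, ∑ j, (q i j t : ZMod p) * (m i * n j), fun g => ?_⟩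
  rw [AddMonoidAlgebra.coeff_mul_apply_left, Finsupp.sum_fintype _ _ (by simp)]
  have h1 : ∀ w, x.coeff w * y.coeff (-w + g)
      = ∑ i, ∑ j, if c 0 w = i ∧ c w g = j then m i * n j else 0 := by
    intro w
    rw [hm, hn]
    have hwg : c 0 (-w + g) = c w g := by
      rw [hT.eq w g]
      congr 1
      abel
    rw [hwg]
    rw [Finset.sum_eq_single (c 0 w)]
    · rw [Finset.sum_eq_single (c w g)]
      · simp
      · intro j _ hj
        rw [if_neg]
        exact fun h => hj h.2.symm
      · simp
    · intro i _ hi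
      apply Finset.sum_eq_zero
      intro j _
      rw [if_neg]
      exact fun h => hi h.1.symm
    · simp
  simp_rw [h1]
  rw [Finset.sum_comm]
  apply Finset.sum_congr rfl
  intro i _
  rw [Finset.sum_comm]
  apply Finset.sum_congr rfl
  intro j _
  rw [← hq i j (c 0 g) 0 g rfl, Finset.card_filter, Nat.cast_sum, Finset.sum_mul]
  apply Finset.sum_congr rfl
  intro w _
  by_cases h : c 0 w = i ∧ c w g = j <;> simp [h]

theorem multiplier (hc : IsCoherent c) (hT : Trans c) {p : ℕ} (hp : p.Prime)
    (hpV : (Fintype.card V).Coprime p) {x y : V} (h : c 0 (p • x) = c 0 (p • y)) :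
    c 0 x = c 0 y := by
  classical
  have : Fact p.Prime := ⟨hp⟩
  have : CharP (AddMonoidAlgebra (ZMod p) V) p :=
    charP_of_injective_algebraMap (algebraMap (ZMod p) (AddMonoidAlgebra (ZMod p) V)).injective p
  set i := c 0 x with hi
  set s : AddMonoidAlgebra (ZMod p) V :=
    ∑ g ∈ univ.filter (fun g => c 0 g = i), AddMonoidAlgebra.single g 1 with hs
  have hsc : ∀ g, s.coeff g = if c 0 g = i then 1 else 0 := by
    intro g
    rw [hs, AddMonoidAlgebra.coeff_sum, Finsupp.finsetSum_apply]
    simp only [AddMonoidAlgebra.coeff_single, Finsupp.single_apply]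
    rw [Finset.sum_ite_eq' (univ.filter fun g => c 0 g = i) g (fun _ => (1 : ZMod p))]
    simp
  have hsCF : CF c s := ⟨fun j => if j = i then 1 else 0, fun g => hsc g⟩
  have hpow : ∀ k : ℕ, CF c (s ^ (k + 1)) := by
    intro k
    induction k with
    | zero => simpa using hsCF
    | succ k ih => rw [pow_succ]; exact CF.mul hc hT ih hsCF
  have hsp : CF c (s ^ p) := by
    have h5 := hpow (p - 1)
    rwa [Nat.sub_add_cancel hp.one_le] at h5
  have hfrob : s ^ p = ∑ g ∈ univ.filter (fun g => c 0 g = i),
      AddMonoidAlgebra.single (p • g) (1 : ZMod p) := by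
    rw [hs, sum_pow_char]
    apply Finset.sum_congr rfl
    intro g _
    rw [AddMonoidAlgebra.single_pow, one_pow]
  have hinj : Function.Injective (fun g : V => p • g) := by
    apply (Nat.Coprime.nsmul_right_bijective _).injective
    rwa [Nat.card_eq_fintype_card]
  have hval : ∀ z, (s ^ p).coeff z
      = ((univ.filter fun g => c 0 g = i ∧ p • g = z).card : ZMod p) := by
    intro z
    rw [hfrob, AddMonoidAlgebra.coeff_sum, Finsupp.finsetSum_apply]
    simp only [AddMonoidAlgebra.coeff_single, Finsupp.single_apply]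
    rw [Finset.card_filter, Nat.cast_sum, Finset.sum_filter]
    apply Finset.sum_congr rfl
    intro g _
    by_cases h1 : c 0 g = i <;> by_cases h2 : p • g = z <;> simp [h1, h2]
  obtain ⟨m, hm⟩ := hsp
  have h1 : (s ^ p).coeff (p • x) = 1 := by
    rw [hval]
    have : (univ.filter fun g => c 0 g = i ∧ p • g = p • x) = {x} := by
      ext g
      simp only [Finset.mem_filter, Finset.mem_univ, true_and, Finset.mem_singleton]
      constructor
      · intro hg
        exact hinj hg.2
      · rintro rfl
        exact ⟨rfl, rfl⟩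
    rw [this]
    simp
  have h2 : (s ^ p).coeff (p • y) = 1 := by
    rw [hm, ← h, ← hm, h1]
  rw [hval] at h2
  have h3 : (univ.filter fun g => c 0 g = i ∧ p • g = p • y).Nonempty := by
    rw [Finset.nonempty_iff_ne_empty]
    intro h4
    rw [h4] at h2
    simp at h2
  obtain ⟨g, hg⟩ := h3
  simp only [Finset.mem_filter, Finset.mem_univ, true_and] at hg
  have := hinj hg.2
  rw [← this, hg.1]

/-- `D(z)` for a translation scheme. -/
def dz (c : V → V → Fin r) (z : V) : ℕ := dnum c 0 z

theorem dnum_trans (hT : Trans c) (u v h : V) : dnum c (u + h) (v + h) = dnum c u v := by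
  unfold dnum
  apply Finset.card_bij (fun w _ => w - h)
  · intro w hw
    simp only [Finset.mem_filter, Finset.mem_univ, true_and] at hw ⊢
    have h1 := hT h (w - h) u
    have h2 := hT h (w - h) v
    rw [sub_add_cancel] at h1 h2
    rw [← h1, ← h2]
    exact hw
  · intro w _ w' _ h
    simpa using h
  · intro w hw
    simp only [Finset.mem_filter, Finset.mem_univ, true_and] at hw
    refine ⟨w + h, ?_, by simp⟩
    simp only [Finset.mem_filter, Finset.mem_univ, true_and]
    rw [hT, hT]
    exact hw

theorem dnum_symm (c : V → V → Fin r) (u v : V) : dnum c u v = dnum c v u := by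
  unfold dnum
  congr 1
  ext w
  simp only [Finset.mem_filter, Finset.mem_univ, true_and]
  exact ne_comm

theorem dnum_tri (c : V → V → Fin r) (u v w : V) : dnum c u w ≤ dnum c u v + dnum c v w := by
  unfold dnum
  rw [← Finset.card_union_add_card_inter]
  refine le_trans (Finset.card_le_card ?_) (Nat.le_add_right _ _)
  intro x hx
  simp only [Finset.mem_filter, Finset.mem_univ, true_and, Finset.mem_union] at hx ⊢
  by_contra hcon
  push Not at hcon
  exact hx (hcon.1.trans hcon.2)

theorem dz_add (hT : Trans c) (x y : V) : dz c (x + y) ≤ dz c x + dz c y := by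
  unfold dz
  refine (dnum_tri c 0 x (x + y)).trans ?_
  have := dnum_trans hT 0 y x
  rw [zero_add, add_comm y x] at this
  rw [this]

theorem dz_neg (hT : Trans c) (x : V) : dz c (-x) = dz c x := by
  unfold dz
  have := dnum_trans hT 0 (-x) x
  rw [zero_add, neg_add_cancel] at this
  rw [← this, dnum_symm]

theorem dz_sub (hT : Trans c) (x y : V) : dz c (x - y) ≤ dz c x + dz c y := by
  rw [sub_eq_add_neg, ← dz_neg hT y]
  exact dz_add hT _ _

theorem dz_zero (c : V → V → Fin r) : dz c 0 = 0 := by
  unfold dz dnum
  simp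

/-- `D(z) = #{x : c 0 x ≠ c 0 (x+z)}`. -/
theorem dz_eq (hT : Trans c) (z : V) :
    dz c z = (univ.filter fun x => c 0 x ≠ c 0 (x + z)).card := by
  unfold dz dnum
  apply Finset.card_bij (fun w _ => -w)
  · intro w hw
    simp only [Finset.mem_filter, Finset.mem_univ, true_and] at hw ⊢
    rw [hT.eq w 0, hT.eq w z] at hw
    rw [zero_sub] at hw
    have : -w + z = z - w := by abel
    rw [this]
    exact hw
  · intro w _ w' _ h
    simpa using h
  · intro x hx
    simp only [Finset.mem_filter, Finset.mem_univ, true_and] at hx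
    refine ⟨-x, ?_, by simp⟩
    simp only [Finset.mem_filter, Finset.mem_univ, true_and]
    rw [hT.eq (-x) 0, hT.eq (-x) z]
    have h1 : (0 : V) - -x = x := by abel
    have h2 : z - -x = x + z := by abel
    rw [h1, h2]
    exact hx

theorem dz_prime (hc : IsCoherent c) (hT : Trans c) {p : ℕ} (hp : p.Prime)
    (hpV : (Fintype.card V).Coprime p) (z : V) : dz c z ≤ dz c (p • z) := by
  rw [dz_eq hT, dz_eq hT]
  apply Finset.card_le_card_of_injOn (fun x => p • x)
  · intro x hx
    simp only [Finset.coe_filter, Finset.mem_univ, true_and, Set.mem_ofPred_eq] at hx ⊢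
    intro h
    apply hx
    apply multiplier hc hT hp hpV
    rw [smul_add]
    exact h
  · intro x _ y _ h
    have hinj : Function.Injective (fun g : V => p • g) := by
      apply (Nat.Coprime.nsmul_right_bijective _).injective
      rwa [Nat.card_eq_fintype_card]
    exact hinj h

theorem dz_coprime (hc : IsCoherent c) (hT : Trans c) : ∀ (m : ℕ), m ≠ 0 →
    (Fintype.card V).Coprime m → ∀ z : V, dz c z ≤ dz c (m • z) := by
  intro m
  induction m using Nat.recOnMul with
  | zero => intro h; exact absurd rfl h
  | one => intro _ _ z; rw [one_smul]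
  | prime p hp => intro _ h z; exact dz_prime hc hT hp h z
  | mul a b iha ihb =>
    intro h0 hco z
    have ha : a ≠ 0 := by rintro rfl; simp at h0
    have hb : b ≠ 0 := by rintro rfl; simp at h0
    have hca : (Fintype.card V).Coprime a := Nat.Coprime.coprime_mul_right_right hco
    have hcb : (Fintype.card V).Coprime b := Nat.Coprime.coprime_mul_left_right hco
    calc dz c z ≤ dz c (b • z) := ihb hb hcb z
      _ ≤ dz c (a • b • z) := iha ha hca _
      _ = dz c ((a * b) • z) := by rw [smul_smul]

theorem dz_coprime' (hc : IsCoherent c) (hT : Trans c) {m : ℕ}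
    (hm : (Fintype.card V).Coprime m) (z : V) : dz c (m • z) ≤ dz c z := by
  have hN : 0 < Fintype.card V := Fintype.card_pos_iff.mpr ⟨0⟩
  rcases Nat.eq_zero_or_pos m with h0 | h0
  · subst h0
    rw [zero_smul, dz_zero]
    exact Nat.zero_le _
  set N := Fintype.card V with hNdef
  have htot : 1 ≤ Nat.totient N := Nat.totient_pos.mpr hN
  have h1 : m ^ Nat.totient N ≡ 1 [MOD N] := Nat.ModEq.pow_totient hm.symm
  have h2 : (m ^ Nat.totient N) • z = z := by
    have h3 : (m ^ Nat.totient N) • z = ((m ^ Nat.totient N) % N) • z := by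
      conv_lhs => rw [← Nat.div_add_mod (m ^ Nat.totient N) N, add_smul, mul_smul]
      rw [hNdef, card_nsmul_eq_zero, zero_add]
    have h4 : (1 : ℕ) • z = (1 % N) • z := by
      conv_lhs => rw [← Nat.div_add_mod 1 N, add_smul, mul_smul]
      rw [hNdef, card_nsmul_eq_zero, zero_add]
    rw [h3, h1, ← h4, one_smul]
  obtain ⟨k, hk⟩ := Nat.exists_eq_add_of_le' htot
  have h5 := dz_coprime hc hT (m ^ k) (pow_pos h0 k).ne' (Nat.Coprime.pow_right k hm) (m • z)
  rw [smul_smul, ← pow_succ, ← hk, h2] at h5
  exact h5

end Pool.Agent.Helper26.CC
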