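import Pool.Agent.Helper26.CC.Mult

/-!
The spectral gap theorem for translation schemes.
-/

set_option linter.unusedSectionVars false
set_option linter.unusedVariables false

namespace Pool.Agent.Helper26.CC

open Finset Matrix

/-- Every residue is a difference of two units, when `m` is even or `N` is odd. -/
theorem two_units (N m : ℕ) (hN : N ≠ 0) (h : Even m ∨ Odd N) :
    ∃ A : ℕ, N.Coprime (m + A) ∧ N.Coprime (2 * m + A) := by
  classical
  refine ⟨∏ p ∈ N.primeFactors.filter (fun p => ¬ p ∣ m), p, ?_, ?_⟩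
  · rw [Nat.coprime_iff_gcd_eq_one]
    by_contra hcon
    obtain ⟨q, hq, hqd⟩ := Nat.exists_prime_and_dvd hcon
    have hqN : q ∣ N := hqd.trans (Nat.gcd_dvd_left _ _)
    have hqS := hqd.trans (Nat.gcd_dvd_right N _)
    by_cases hqm : q ∣ m
    · have hqA : q ∣ ∏ p ∈ N.primeFactors.filter (fun p => ¬ p ∣ m), p :=
        (Nat.dvd_add_right hqm).mp hqS
      rw [Prime.dvd_finsetProd_iff hq.prime] at hqA
      obtain ⟨p, hp, hqp⟩ := hqA
      rw [Finset.mem_filter, Nat.mem_primeFactors] at hp
      have : q = p := (Nat.prime_dvd_prime_iff_eq hq hp.1.1).mp hqp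
      rw [← this] at hp
      exact hp.2 hqm
    · have hqA : q ∣ ∏ p ∈ N.primeFactors.filter (fun p => ¬ p ∣ m), p :=
        Finset.dvd_prod_of_mem _ (by
          rw [Finset.mem_filter, Nat.mem_primeFactors]
          exact ⟨⟨hq, hqN, hN⟩, hqm⟩)
      exact hqm ((Nat.dvd_add_left hqA).mp hqS)
  · rw [Nat.coprime_iff_gcd_eq_one]
    by_contra hcon
    obtain ⟨q, hq, hqd⟩ := Nat.exists_prime_and_dvd hcon
    have hqN : q ∣ N := hqd.trans (Nat.gcd_dvd_left _ _)
    have hqS := hqd.trans (Nat.gcd_dvd_right N _)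
    by_cases hqm : q ∣ m
    · have hqA : q ∣ ∏ p ∈ N.primeFactors.filter (fun p => ¬ p ∣ m), p :=
        (Nat.dvd_add_right (hqm.mul_left 2)).mp hqS
      rw [Prime.dvd_finsetProd_iff hq.prime] at hqA
      obtain ⟨p, hp, hqp⟩ := hqA
      rw [Finset.mem_filter, Nat.mem_primeFactors] at hp
      have : q = p := (Nat.prime_dvd_prime_iff_eq hq hp.1.1).mp hqp
      rw [← this] at hp
      exact hp.2 hqm
    · have hqA : q ∣ ∏ p ∈ N.primeFactors.filter (fun p => ¬ p ∣ m), p :=
        Finset.dvd_prod_of_mem _ (by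
          rw [Finset.mem_filter, Nat.mem_primeFactors]
          exact ⟨⟨hq, hqN, hN⟩, hqm⟩)
      have h2 : q ∣ 2 * m := (Nat.dvd_add_left hqA).mp hqS
      rcases (Nat.Prime.dvd_mul hq).mp h2 with h3 | h3
      · have hq2 : q = 2 := (Nat.prime_dvd_prime_iff_eq hq Nat.prime_two).mp h3
        rw [hq2] at hqm hqN
        rcases h with h | h
        · exact hqm h.two_dvd
        · exact (Nat.not_even_iff_odd.mpr h) (even_iff_two_dvd.mpr hqN)
      · exact hqm h3

variable {V : Type*} [Fintype V] [DecidableEq V] [AddCommGroup V] {r : ℕ}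
variable {c : V → V → Fin r}

theorem dz_two (hc : IsCoherent c) (hT : Trans c) {m : ℕ} (h : Even m ∨ Odd (Fintype.card V))
    (z : V) : dz c (m • z) ≤ 2 * dz c z := by
  have hN : Fintype.card V ≠ 0 := (Fintype.card_pos_iff.mpr ⟨(0 : V)⟩).ne'
  obtain ⟨A, h1, h2⟩ := two_units (Fintype.card V) m hN h
  have h3 : m • z = (2 * m + A) • z - (m + A) • z := by
    rw [eq_sub_iff_add_eq, ← add_smul]
    congr 1
    ring
  rw [h3]
  have h4 := dz_sub hT ((2 * m + A) • z) ((m + A) • z)
  have h5 := dz_coprime' hc hT h1 z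
  have h6 := dz_coprime' hc hT h2 z
  omega

theorem dz_all (hc : IsCoherent c) (hT : Trans c) (m : ℕ) (z : V) :
    dz c (m • z) ≤ 3 * dz c z := by
  rcases Nat.even_or_odd m with h | h
  · have := dz_two hc hT (Or.inl h) z
    omega
  · obtain ⟨k, hk⟩ := h
    have h1 : m • z = (2 * k) • z + z := by rw [hk, add_smul, one_smul]
    rw [h1]
    have h2 := dz_add hT ((2 * k) • z) z
    have h3 := dz_two hc hT (m := 2 * k) (Or.inl (even_two_mul k)) z
    omega

/-- Choosing a class on which a function has nonpositive sum. -/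
theorem exists_class {V : Type*} [Fintype V] [DecidableEq V] {r : ℕ} {c : V → V → Fin r}
    (hc : IsPCC c) (hn : 3 ≤ Fintype.card V) (u : V) (φ : V → ℝ)
    (h : ∑ w ∈ univ.erase u, φ w ≤ 0) :
    ∃ a, IsEdgeColor c a ∧
      ∑ w ∈ univ.filter (fun w => u ≠ w ∧ (c u w = a ∨ c w u = a)), φ w ≤ 0 := by
  classical
  by_contra hcon
  push Not at hcon
  set g : V → Fin r × Fin r := fun w => if c u w ≤ c w u then (c u w, c w u) else (c w u, c u w)
    with hg
  have hgeq : ∀ w w', g w = g w' ↔ (c u w = c u w' ∧ c w u = c w' u) ∨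
      (c u w = c w' u ∧ c w u = c u w') := by
    intro w w'
    rw [hg]
    simp only
    split_ifs with h1 h2 h2 <;> simp only [Prod.mk.injEq]
    · constructor
      · intro h3; exact Or.inl h3
      · rintro (h3 | ⟨h3, h4⟩)
        · exact h3
        · rw [h3, h4] at h1 ⊢
          have := le_antisymm h1 h2
          exact ⟨this, this.symm⟩
    · constructor
      · intro h3; exact Or.inr h3
      · rintro (⟨h3, h4⟩ | h3)
        · rw [h3, h4] at h1
          exact absurd h1 h2
        · exact h3
    · constructor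
      · intro h3; exact Or.inr ⟨h3.2, h3.1⟩
      · rintro (⟨h3, h4⟩ | ⟨h3, h4⟩)
        · rw [← h3, ← h4] at h2
          exact absurd h2 h1
        · exact ⟨h4, h3⟩
    · constructor
      · intro h3; exact Or.inl ⟨h3.2, h3.1⟩
      · rintro (⟨h3, h4⟩ | ⟨h3, h4⟩)
        · exact ⟨h4, h3⟩
        · rw [← h3, ← h4] at h2
          exact absurd (le_of_not_ge h1) h2
  have hfib := Finset.sum_fiberwise_of_maps_to (s := univ.erase u)
    (t := (univ.erase u).image g) (g := g) (fun w hw => Finset.mem_image_of_mem g hw) φ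
  have hpos : 0 < ∑ y ∈ (univ.erase u).image g, ∑ w ∈ (univ.erase u).filter (fun w => g w = y),
      φ w := by
    apply Finset.sum_pos
    · intro y hy
      obtain ⟨w0, hw0, rfl⟩ := Finset.mem_image.mp hy
      have hne : u ≠ w0 := (Finset.ne_of_mem_erase hw0).symm
      have hE : IsEdgeColor c (c u w0) := fun z => hc.coherent.diag_ne z u w0 hne
      have h1 := hcon (c u w0) hE
      have h2 : (univ.erase u).filter (fun w => g w = g w0)
          = univ.filter (fun w => u ≠ w ∧ (c u w = c u w0 ∨ c w u = c u w0)) := by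
        obtain ⟨s, hs⟩ := hc.coherent.inv (c u w0)
        obtain ⟨s', hs'⟩ := hc.coherent.inv s
        have hs0 : c w0 u = s := hs _ _ rfl
        have hs0' : s' = c u w0 := (hs' _ _ hs0).symm
        ext w
        simp only [Finset.mem_filter, Finset.mem_erase, Finset.mem_univ, and_true, true_and]
        rw [hgeq]
        constructor
        · rintro ⟨h3, h4 | h4⟩
          · exact ⟨Ne.symm h3, Or.inl h4.1⟩
          · exact ⟨Ne.symm h3, Or.inr h4.2⟩
        · rintro ⟨h3, h4 | h4⟩
          · exact ⟨Ne.symm h3, Or.inl ⟨h4, by rw [hs _ _ h4, hs0]⟩⟩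
          · exact ⟨Ne.symm h3, Or.inr ⟨by rw [hs _ _ h4, hs0], h4⟩⟩
      rw [h2]
      exact h1
    · rw [Finset.image_nonempty]
      rw [← Finset.card_pos, Finset.card_erase_of_mem (Finset.mem_univ _), Finset.card_univ]
      omega
  rw [hfib] at hpos
  linarith

theorem sum_range_shift {M : Type*} [AddCommMonoid M] (g : V → M) (z x : V) :
    ∑ l ∈ range (Fintype.card V), g (x + z + l • z) = ∑ l ∈ range (Fintype.card V), g (x + l • z) := by
  have hN : 0 < Fintype.card V := Fintype.card_pos_iff.mpr ⟨(0 : V)⟩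
  obtain ⟨n, hn⟩ := Nat.exists_eq_succ_of_ne_zero hN.ne'
  have hz : Fintype.card V • z = 0 := card_nsmul_eq_zero
  rw [hn] at hz ⊢
  rw [Finset.sum_range_succ, Finset.sum_range_succ']
  congr 1
  · apply Finset.sum_congr rfl
    intro l _
    congr 1
    rw [add_smul, one_smul]
    abel
  · congr 1
    rw [zero_smul, add_zero, add_assoc]
    have : z + n • z = n.succ • z := by rw [Nat.succ_eq_add_one, add_smul, one_smul, add_comm]
    rw [this, hz, add_zero]

theorem sum_range_shift' {M : Type*} [AddCommMonoid M] (g : V → M) (z x : V) (k : ℕ) :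
    ∑ l ∈ range (Fintype.card V), g (x + k • z + l • z)
      = ∑ l ∈ range (Fintype.card V), g (x + l • z) := by
  induction k with
  | zero => simp
  | succ k ih =>
    rw [← ih]
    have : ∀ l : ℕ, x + (k + 1) • z + l • z = (x + k • z) + z + l • z := by
      intro l
      rw [add_smul, one_smul]
      abel
    simp_rw [this]
    exact sum_range_shift g z (x + k • z)

/-- The bound on eigenvalues for a good colour. -/
theorem eig_bound (hc : IsPCC c) (hT : Trans c) (hn : 3 ≤ Fintype.card V) {a : Fin r}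
    (ha : IsEdgeColor c a) {z : V} (hz : z ≠ 0) {ξ : ℝ} {f : V → ℝ} (hf0 : f ≠ 0)
    (hfs : ∑ v, f v = 0) (hf : adj c a *ᵥ f = ξ • f) {β : ℝ} (hβ0 : 0 ≤ β)
    (hβ : ∑ l ∈ range (Fintype.card V), ∑ w, |adj c a 0 w - adj c a (l • z) w|
      ≤ Fintype.card V * β) : |ξ| ≤ β := by
  classical
  rcases eq_or_ne ξ 0 with h0 | h0
  · rw [h0, abs_zero]; exact hβ0
  obtain ⟨E, hE⟩ := exists_mode hc ha h0 hf0 hfs hf
  set N := Fintype.card V with hN
  have hNpos : 0 < (N : ℝ) := by
    have : 0 < N := by omega
    exact_mod_cast this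
  have hEt : ∀ h u v : V, E (u + h) (v + h) = E u v := fun h u v => hE.cm.eq (hT h u v)
  have hAt : ∀ h u v : V, adj c a (u + h) (v + h) = adj c a u v := fun h u v =>
    (adj_CM hc.coherent ha).eq (hT h u v)
  -- the test function
  set e : V → ℝ := fun w => E w 0 with he
  have hee : ∀ u, ∑ w, adj c a u w * e w = ξ * e u := fun u => hE.eig u 0
  have hes : ∀ h u, ∑ w, adj c a u w * e (w + h) = ξ * e (u + h) := by
    intro h u
    rw [← hee (u + h), ← Equiv.sum_comp (Equiv.addRight h) (fun w => adj c a (u + h) w * e w)]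
    apply Finset.sum_congr rfl
    intro w _
    simp only [Equiv.coe_addRight]
    rw [hAt]
  set g : V → ℝ := fun w => (N : ℝ) * e w - ∑ l ∈ range N, e (w + l • z) with hg
  have hgeig : ∀ u, ∑ w, adj c a u w * g w = ξ * g u := by
    intro u
    rw [hg]
    simp only [mul_sub, Finset.sum_sub_distrib, Finset.mul_sum]
    rw [Finset.sum_comm]
    have h1 : ∑ w, adj c a u w * ((N : ℝ) * e w) = ξ * (N * e u) := by
      calc _ = (N : ℝ) * ∑ w, adj c a u w * e w := by
            rw [Finset.mul_sum]
            apply Finset.sum_congr rfl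
            intro w _
            ring
        _ = _ := by rw [hee]; ring
    rw [h1]
    congr 1
    apply Finset.sum_congr rfl
    intro l _
    exact hes (l • z) u
  have hgsum : ∀ w, ∑ k ∈ range N, g (w + k • z) = 0 := by
    intro w
    rw [hg]
    simp only [Finset.sum_sub_distrib, ← Finset.mul_sum]
    have h1 : ∀ k ∈ range N, ∑ l ∈ range N, e (w + k • z + l • z)
        = ∑ l ∈ range N, e (w + l • z) := fun k _ => sum_range_shift' e z w k
    rw [Finset.sum_congr rfl h1, Finset.sum_const, Finset.card_range, nsmul_eq_mul]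
    ring
  have hg0 : 0 < g 0 := by
    have h1 : ∑ l ∈ range N, e (0 + l • z) < ∑ l ∈ range N, e 0 := by
      apply Finset.sum_lt_sum
      · intro l _
        rw [he]
        simp only
        rcases eq_or_ne (0 + l • z) 0 with h | h
        · rw [h]
        · have := hE.lt hc h
          rw [hE.diag hc (0 + l • z) 0] at this
          exact this.le
      · refine ⟨1, Finset.mem_range.mpr (by omega), ?_⟩
        rw [he]
        simp only
        have h : (0 : V) + (1 : ℕ) • z ≠ 0 := by rwa [zero_add, one_smul]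
        have := hE.lt hc h
        rw [hE.diag hc (0 + (1 : ℕ) • z) 0] at this
        exact this
    rw [Finset.sum_const, Finset.card_range, nsmul_eq_mul] at h1
    rw [hg]
    simp only
    linarith
  -- maximum of |g|
  obtain ⟨x, _, hx⟩ := Finset.exists_max_image (univ : Finset V) (fun w => |g w|) ⟨0, mem_univ _⟩
  have hgx : 0 < |g x| := lt_of_lt_of_le (abs_pos.mpr hg0.ne') (hx 0 (mem_univ _))
  -- N ξ g x = Σ_l Σ_w (adj x w - adj (x + l z) w) g w
  have hmain : (N : ℝ) * (ξ * g x)
      = ∑ l ∈ range N, ∑ w, (adj c a x w - adj c a (x + l • z) w) * g w := by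
    have h1 : ∀ l ∈ range N, ∑ w, (adj c a x w - adj c a (x + l • z) w) * g w
        = ξ * g x - ξ * g (x + l • z) := by
      intro l _
      simp only [sub_mul, Finset.sum_sub_distrib]
      rw [hgeig, hgeig]
    rw [Finset.sum_congr rfl h1, Finset.sum_sub_distrib, Finset.sum_const, Finset.card_range,
      ← Finset.mul_sum, hgsum, nsmul_eq_mul]
    ring
  have h2 : (N : ℝ) * (|ξ| * |g x|) ≤ (N * β) * |g x| := by
    calc (N : ℝ) * (|ξ| * |g x|) = |(N : ℝ) * (ξ * g x)| := by
          rw [abs_mul, abs_mul, abs_of_pos hNpos]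
      _ = |∑ l ∈ range N, ∑ w, (adj c a x w - adj c a (x + l • z) w) * g w| := by rw [hmain]
      _ ≤ ∑ l ∈ range N, ∑ w, |adj c a x w - adj c a (x + l • z) w| * |g x| := by
          refine (Finset.abs_sum_le_sum_abs _ _).trans (Finset.sum_le_sum fun l _ => ?_)
          refine (Finset.abs_sum_le_sum_abs _ _).trans (Finset.sum_le_sum fun w _ => ?_)
          rw [abs_mul]
          exact mul_le_mul_of_nonneg_left (hx w (mem_univ _)) (abs_nonneg _)
      _ = (∑ l ∈ range N, ∑ w, |adj c a 0 w - adj c a (l • z) w|) * |g x| := by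
          rw [Finset.sum_mul]
          apply Finset.sum_congr rfl
          intro l _
          rw [Finset.sum_mul, ← Equiv.sum_comp (Equiv.addRight x)
            (fun w => |adj c a x w - adj c a (x + l • z) w| * |g x|)]
          apply Finset.sum_congr rfl
          intro w _
          simp only [Equiv.coe_addRight]
          have h3 := hAt x 0 w
          have h4 := hAt x (l • z) w
          rw [zero_add] at h3
          rw [h3, add_comm x (l • z), h4]
      _ ≤ _ := mul_le_mul_of_nonneg_right hβ hgx.le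
  have h3 : (|ξ| * N) * |g x| ≤ (β * N) * |g x| := by
    calc _ = (N : ℝ) * (|ξ| * |g x|) := by ring
      _ ≤ _ := h2
      _ = _ := by ring
  have h4 := le_of_mul_le_mul_right h3 hgx
  exact le_of_mul_le_mul_right h4 hNpos

theorem translation_gap (hc : IsPCC c) (hT : Trans c) (hn : 3 ≤ Fintype.card V) :
    ∃ a, IsEdgeColor c a ∧ ∀ w,
      xi (sym c a) ≤ 6 * (dmin c : ℝ) / Fintype.card V * (deg c a w : ℝ) := by
  classical
  obtain ⟨x, y, hxy, hD⟩ := dmin_attained hn c
  set z : V := y - x with hz
  have hz0 : z ≠ 0 := by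
    rw [hz]
    exact sub_ne_zero.mpr hxy.symm
  have hDz : dz c z = dmin c := by
    rw [← hD]
    unfold dz
    have := dnum_trans hT 0 z x
    rw [zero_add, hz, sub_add_cancel] at this
    rw [this]
  set N := Fintype.card V with hN
  have hNpos : 0 < (N : ℝ) := by
    have : 0 < N := by omega
    exact_mod_cast this
  set D : ℝ := (dmin c : ℝ) with hDD
  have hD0 : 0 ≤ D := by rw [hDD]; positivity
  set φ : V → ℝ := fun w => ∑ l ∈ range N, ((if c w 0 ≠ c w (l • z) then (1 : ℝ) else 0) - 3 * D / N)
    with hφ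
  have hsum : ∑ w ∈ univ.erase (0 : V), φ w ≤ 0 := by
    rw [hφ]
    simp only
    rw [Finset.sum_comm]
    -- the term `l = 0` and the other ones
    have h1 : ∀ l ∈ range N, ∑ w ∈ univ.erase (0 : V),
        ((if c w 0 ≠ c w (l • z) then (1 : ℝ) else 0) - 3 * D / N)
        ≤ (if l = 0 then 0 else 3 * D) - (N - 1) * (3 * D / N) := by
      intro l hl
      rw [Finset.sum_sub_distrib, Finset.sum_const, Finset.card_erase_of_mem (mem_univ _),
        Finset.card_univ, nsmul_eq_mul]
      have h2 : ((Fintype.card V - 1 : ℕ) : ℝ) = (N : ℝ) - 1 := by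
        rw [Nat.cast_sub (by omega), Nat.cast_one]
      rw [h2]
      apply sub_le_sub_right
      split_ifs with hl0
      · subst hl0
        simp
      · calc ∑ w ∈ univ.erase (0 : V), (if c w 0 ≠ c w (l • z) then (1 : ℝ) else 0)
            ≤ ∑ w, (if c w 0 ≠ c w (l • z) then (1 : ℝ) else 0) :=
              Finset.sum_le_sum_of_subset_of_nonneg (Finset.erase_subset _ _)
                (fun _ _ _ => by split_ifs <;> norm_num)
          _ = (dz c (l • z) : ℝ) := by
              unfold dz dnum
              rw [Finset.card_filter, Nat.cast_sum]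
              apply Finset.sum_congr rfl
              intro w _
              split_ifs <;> simp
          _ ≤ 3 * D := by
              rw [hDD, ← hDz]
              exact_mod_cast dz_all hc.coherent hT l z
    refine (Finset.sum_le_sum h1).trans ?_
    rw [Finset.sum_sub_distrib, Finset.sum_const, Finset.card_range, nsmul_eq_mul]
    have h3 : ∑ l ∈ range N, (if l = 0 then (0 : ℝ) else 3 * D) = (N - 1) * (3 * D) := by
      obtain ⟨m, hm⟩ := Nat.exists_eq_succ_of_ne_zero (show N ≠ 0 by omega)
      rw [hm, Finset.sum_range_succ']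
      simp
    rw [h3]
    apply le_of_eq
    field_simp
    ring
  obtain ⟨a, haE, ha⟩ := exists_class hc hn 0 φ hsum
  refine ⟨a, haE, fun w0 => ?_⟩
  set S := univ.filter (fun w : V => (0 : V) ≠ w ∧ (c 0 w = a ∨ c w 0 = a)) with hS
  have hScard : (S.card : ℝ) = deg c a w0 := by
    rw [deg_const hc haE w0 0]
    rfl
  set d : ℝ := (deg c a w0 : ℝ) with hd
  have hd0 : 0 ≤ d := by rw [hd]; positivity
  have hA1 : (sym c a).adjMatrix ℝ *ᵥ (fun _ => 1) = d • (fun _ => (1 : ℝ)) := by
    rw [adjMatrix_eq]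
    ext u
    simp only [Matrix.mulVec, dotProduct, mul_one, Pi.smul_apply, smul_eq_mul]
    rw [adj_sum, hd, deg_const hc haE u w0]
  apply xi_le (by omega) hd0 hA1
  intro ξ f hf0 hfs hf
  rw [adjMatrix_eq] at hf
  apply eig_bound hc hT hn haE hz0 hf0 hfs hf (by positivity)
  -- each `l` contributes at most twice the number of `w ∈ S` that distinguish `0` and `l z`
  have h1 : ∀ l ∈ range N, ∑ w, |adj c a 0 w - adj c a (l • z) w|
      ≤ 2 * ∑ w ∈ S, (if c w 0 ≠ c w (l • z) then (1 : ℝ) else 0) := by
    intro l _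
    -- |A - B| = 2 (A - B)^+ - (A - B), and sums are equal
    have h2 : ∀ w, |adj c a 0 w - adj c a (l • z) w|
        = 2 * (adj c a 0 w * (1 - adj c a (l • z) w)) - (adj c a 0 w - adj c a (l • z) w) := by
      intro w
      unfold adj
      simp only [Matrix.of_apply]
      split_ifs <;> norm_num
    simp_rw [h2]
    rw [Finset.sum_sub_distrib, Finset.sum_sub_distrib, adj_sum, adj_sum,
      deg_const hc haE (l • z) 0, sub_self, sub_zero, ← Finset.mul_sum]
    apply mul_le_mul_of_nonneg_left _ (by norm_num)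
    rw [hS, Finset.sum_filter]
    apply Finset.sum_le_sum
    intro w _
    unfold adj
    simp only [Matrix.of_apply]
    by_cases hw : (0 : V) ≠ w ∧ (c 0 w = a ∨ c w 0 = a)
    · rw [if_pos hw, if_pos hw, one_mul]
      by_cases hcw : c w 0 ≠ c w (l • z)
      · rw [if_pos hcw]
        split_ifs <;> norm_num
      · rw [if_neg hcw]
        push Not at hcw
        obtain ⟨s, hs⟩ := hc.coherent.inv (c w 0)
        have h3 : c 0 w = s := hs _ _ rfl
        have h4 : c (l • z) w = s := hs _ _ hcw.symm
        have h5 : l • z ≠ w ∧ (c (l • z) w = a ∨ c w (l • z) = a) := by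
          refine ⟨?_, ?_⟩
          · rintro h6
            rw [← h6] at hcw hw
            have := hc.coherent.diag_ne (l • z) (l • z) 0 (Ne.symm hw.1)
            exact this hcw.symm
          · rcases hw.2 with h6 | h6
            · left; rw [h4, ← h3, h6]
            · right; rw [← hcw, h6]
        rw [if_pos h5]
        norm_num
    · rw [if_neg hw, if_neg hw]
      simp
  refine (Finset.sum_le_sum h1).trans ?_
  rw [← Finset.mul_sum, Finset.sum_comm]
  have h2 : ∑ w ∈ S, ∑ l ∈ range N, (if c w 0 ≠ c w (l • z) then (1 : ℝ) else 0)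
      ≤ 3 * D * d := by
    have h3 : ∀ w, φ w = ∑ l ∈ range N, (if c w 0 ≠ c w (l • z) then (1 : ℝ) else 0) - 3 * D := by
      intro w
      rw [hφ]
      simp only
      rw [Finset.sum_sub_distrib, Finset.sum_const, Finset.card_range, nsmul_eq_mul]
      field_simp
    simp_rw [h3] at ha
    rw [Finset.sum_sub_distrib, Finset.sum_const, nsmul_eq_mul] at ha
    rw [hScard] at ha
    linarith
  calc 2 * ∑ w ∈ S, ∑ l ∈ range N, (if c w 0 ≠ c w (l • z) then (1 : ℝ) else 0)
      ≤ 2 * (3 * D * d) := mul_le_mul_of_nonneg_left h2 (by norm_num)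
    _ = (N : ℝ) * (6 * D / N * d) := by field_simp; ring

end Pool.Agent.Helper26.CC
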